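import Pool.Agent.H29.Places

/-! # Weak approximation for places -/

namespace Pool.Agent.H29

variable {k F : Type*} [Field k] [Field F] [Algebra k F]

namespace Place

lemma ne_zero_of_ord_neg {P : Place k F} {f : F} (h : P.ord f < 0) : f ≠ 0 := by
  rintro rfl
  rw [P.ord_zero] at h
  omega

lemma exists_sep {P Q : Place k F} (h : P ≠ Q) : ∃ f : F, f ≠ 0 ∧ 0 ≤ P.ord f ∧ Q.ord f < 0 := by
  by_contra hcon
  push Not at hcon
  apply h
  have h0 : ∀ f : F, f ≠ 0 → P.ord f = 0 → Q.ord f = 0 := by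
    intro f hf hP
    have h1 := hcon f hf hP.ge
    have h2 := hcon f⁻¹ (inv_ne_zero hf) (by rw [ord_inv, hP]; simp)
    rw [ord_inv] at h2
    omega
  obtain ⟨t, ht0, ht⟩ := P.exists_ord_eq 1
  have hc : 0 ≤ Q.ord t := hcon t ht0 (by rw [ht]; norm_num)
  have key : ∀ f : F, f ≠ 0 → Q.ord f = P.ord f * Q.ord t := by
    intro f hf
    have h1 : f * t ^ (-P.ord f) ≠ 0 := mul_ne_zero hf (zpow_ne_zero _ ht0)
    have h2 := h0 _ h1 (by
      rw [P.ord_mul _ _ hf (zpow_ne_zero _ ht0), ord_zpow, ht]; ring)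
    rw [Q.ord_mul _ _ hf (zpow_ne_zero _ ht0), ord_zpow] at h2
    linarith
  obtain ⟨u, hu0, hu⟩ := Q.exists_ord_eq 1
  have h1 := key u hu0
  rw [hu] at h1
  have hone : Q.ord t = 1 := by
    have hdvd : Q.ord t ∣ 1 := ⟨P.ord u, by rw [h1]; ring⟩
    exact Int.eq_one_of_dvd_one hc hdvd
  ext f
  rcases eq_or_ne f 0 with rfl | hf
  · rw [P.ord_zero, Q.ord_zero]
  · rw [key f hf, hone, mul_one]

lemma exists_pos_neg {P Q : Place k F} (h : P ≠ Q) :
    ∃ f : F, f ≠ 0 ∧ 0 < P.ord f ∧ Q.ord f < 0 := by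
  obtain ⟨f, hf0, hf1, hf2⟩ := exists_sep h
  obtain ⟨g, hg0, hg1, hg2⟩ := exists_sep h.symm
  refine ⟨f / g, div_ne_zero hf0 hg0, ?_, ?_⟩
  · rw [ord_div _ hf0 hg0]; omega
  · rw [ord_div _ hf0 hg0]; omega

lemma exists_pos_neg_finset (P : Place k F) (S : Finset (Place k F)) (hP : P ∉ S) :
    ∃ h : F, h ≠ 0 ∧ 0 < P.ord h ∧ ∀ Q ∈ S, Q.ord h < 0 := by
  classical
  induction S using Finset.induction_on with
  | empty =>
    obtain ⟨t, ht0, ht⟩ := P.exists_ord_eq 1
    exact ⟨t, ht0, by omega, by simp⟩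
  | insert Q S hQ ih =>
    rw [Finset.mem_insert, not_or] at hP
    obtain ⟨h, hh0, hh1, hh2⟩ := ih hP.2
    obtain ⟨g, hg0, hg1, hg2⟩ := exists_pos_neg hP.1
    -- exponent larger than all orders of `h`
    set r : ℕ := 1 + ∑ Q' ∈ insert Q S, (Q'.ord h).natAbs with hr
    have hrQ : ∀ Q' ∈ insert Q S, (Q'.ord h).natAbs < r := by
      intro Q' hQ'
      have := Finset.single_le_sum (f := fun Q' : Place k F => (Q'.ord h).natAbs)
        (fun i _ => Nat.zero_le _) hQ'
      omega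
    have hgr0 : g ^ r ≠ 0 := pow_ne_zero r hg0
    have main : ∀ Q' ∈ insert Q S, Q'.ord (h + g ^ r) < 0 := by
      intro Q' hQ'
      have hlt := hrQ Q' hQ'
      have hgr : Q'.ord (g ^ r) = r * Q'.ord g := Q'.ord_pow g r
      have habs1 : Q'.ord h ≤ (Q'.ord h).natAbs := Int.le_natAbs
      have habs2 : -Q'.ord h ≤ (Q'.ord h).natAbs := by
        have := Int.le_natAbs (a := -Q'.ord h)
        rwa [Int.natAbs_neg] at this
      have hr' : ((Q'.ord h).natAbs : ℤ) < r := by exact_mod_cast hlt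
      rcases lt_trichotomy (Q'.ord g) 0 with hneg | hzero | hpos
      · -- `g ^ r` dominates
        have h1 : (r : ℤ) * Q'.ord g ≤ -r := by nlinarith
        have h2 : Q'.ord (g ^ r + h) = Q'.ord (g ^ r) := by
          refine ord_add_eq hgr0 (Or.inr ?_)
          rw [hgr]; omega
        rw [add_comm, h2, hgr]
        omega
      · have hQS : Q' ∈ S := by
          rcases Finset.mem_insert.1 hQ' with rfl | h'
          · omega
          · exact h'
        have h1 := hh2 Q' hQS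
        have h2 : Q'.ord (h + g ^ r) = Q'.ord h := by
          refine ord_add_eq hh0 (Or.inr ?_)
          rw [hgr, hzero, mul_zero]; omega
        rw [h2]; exact h1
      · have hQS : Q' ∈ S := by
          rcases Finset.mem_insert.1 hQ' with rfl | h'
          · omega
          · exact h'
        have h1 := hh2 Q' hQS
        have h2 : Q'.ord (h + g ^ r) = Q'.ord h := by
          refine ord_add_eq hh0 (Or.inr ?_)
          rw [hgr]
          nlinarith
        rw [h2]; exact h1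
    have hne : h + g ^ r ≠ 0 := ne_zero_of_ord_neg (main Q (Finset.mem_insert_self Q S))
    refine ⟨h + g ^ r, hne, ?_, main⟩
    have h1 : P.ge h 1 := Or.inr (by omega)
    have h2 : P.ge (g ^ r) 1 := by
      right
      rw [P.ord_pow]
      have hr1 : 1 ≤ r := by rw [hr]; exact Nat.le_add_right 1 _
      have : (1 : ℤ) ≤ r := by exact_mod_cast hr1
      nlinarith
    have := (h1.add h2).le hne
    omega

lemma exists_near_one (P : Place k F) (S : Finset (Place k F)) (hP : P ∉ S) (N : ℤ) :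
    ∃ w : F, P.ge (w - 1) N ∧ ∀ Q ∈ S, Q.ge w N := by
  obtain ⟨h, hh0, hh1, hh2⟩ := exists_pos_neg_finset P S hP
  set m : ℕ := N.natAbs + 1 with hm
  have hmN : N ≤ m := by omega
  have hm1 : (1 : ℤ) ≤ m := by omega
  have hP1 : P.ge (h ^ m) 1 := by
    right; rw [P.ord_pow]; nlinarith
  have hP2 : (1 : F) + h ^ m ≠ 0 :=
    add_ne_zero_of_ge one_ne_zero (by rw [P.ord_one]; simpa using hP1)
  have hP3 : P.ord (1 + h ^ m) = 0 := by
    rw [ord_add_eq one_ne_zero (by rw [P.ord_one]; simpa using hP1), P.ord_one]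
  refine ⟨(1 + h ^ m)⁻¹, ?_, ?_⟩
  · have e : (1 + h ^ m)⁻¹ - 1 = -(h ^ m / (1 + h ^ m)) := by
      field_simp
      ring
    rw [e]
    apply ge.neg
    have h1 : P.ge (h ^ m) (m * 1) := by
      right; rw [P.ord_pow]; nlinarith
    have h2 := h1.inv_mul hP2
    rw [hP3] at h2
    exact h2.mono (by omega)
  · intro Q hQ
    right
    have hQ1 := hh2 Q hQ
    have h1 : Q.ord (h ^ m) = m * Q.ord h := Q.ord_pow h m
    have h2 : (m : ℤ) * Q.ord h ≤ -m := by nlinarith
    have h3 : Q.ord (h ^ m + 1) = Q.ord (h ^ m) := by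
      refine ord_add_eq (pow_ne_zero m hh0) (Or.inr ?_)
      rw [Q.ord_one, h1]; omega
    rw [Q.ord_inv, add_comm, h3, h1]
    omega

/-- Weak approximation. -/
theorem weak_approx (S : Finset (Place k F)) (f : Place k F → F) (N : ℤ) :
    ∃ g : F, ∀ P ∈ S, P.ge (g - f P) N := by
  classical
  set M : ℤ := N + ∑ P ∈ S, ∑ Q ∈ S, ((P.ord (f Q)).natAbs : ℤ) with hM
  have hMle : ∀ P ∈ S, ∀ Q ∈ S, N ≤ P.ord (f Q) + M := by
    intro P hP Q hQ
    have h1 : ((P.ord (f Q)).natAbs : ℤ) ≤ ∑ Q ∈ S, ((P.ord (f Q)).natAbs : ℤ) :=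
      Finset.single_le_sum (f := fun Q => ((P.ord (f Q)).natAbs : ℤ))
        (fun i _ => by positivity) hQ
    have h2 : ∑ Q ∈ S, ((P.ord (f Q)).natAbs : ℤ) ≤
        ∑ P ∈ S, ∑ Q ∈ S, ((P.ord (f Q)).natAbs : ℤ) :=
      Finset.single_le_sum (f := fun P : Place k F => ∑ Q ∈ S, ((P.ord (f Q)).natAbs : ℤ))
        (fun i _ => Finset.sum_nonneg fun _ _ => by positivity) hP
    have h3 : -P.ord (f Q) ≤ ((P.ord (f Q)).natAbs : ℤ) := by
      have := Int.le_natAbs (a := -P.ord (f Q))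
      rwa [Int.natAbs_neg] at this
    rw [hM]
    omega
  choose! w hw1 hw2 using fun P : Place k F =>
    exists_near_one P (S.erase P) (Finset.notMem_erase P S) M
  refine ⟨∑ Q ∈ S, f Q * w Q, fun P hP => ?_⟩
  have e : ∑ Q ∈ S, f Q * w Q - f P = f P * (w P - 1) + ∑ Q ∈ S.erase P, f Q * w Q := by
    rw [← Finset.add_sum_erase S _ hP]
    ring
  rw [e]
  refine ge.add ?_ (ge.sum fun Q hQ => ?_)
  · exact ((P.ge_ord (f P)).mul (hw1 P)).mono (hMle P hP P hP)
  · have hQS := Finset.mem_of_mem_erase hQ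
    have hPQ : P ∈ S.erase Q := by
      rw [Finset.mem_erase]
      exact ⟨(Finset.ne_of_mem_erase hQ).symm, hP⟩
    exact ((P.ge_ord (f Q)).mul (hw2 Q P hPQ)).mono (hMle P hP Q hQS)

/-- There are functions with prescribed orders at finitely many places. -/
theorem exists_ord_eq_finset (S : Finset (Place k F)) (n : Place k F → ℤ) :
    ∃ g : F, g ≠ 0 ∧ ∀ P ∈ S, P.ord g = n P := by
  classical
  rcases S.eq_empty_or_nonempty with rfl | ⟨P0, hP0⟩
  · exact ⟨1, one_ne_zero, by simp⟩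
  choose f hf0 hf using fun P : Place k F => P.exists_ord_eq (n P)
  obtain ⟨g, hg⟩ := weak_approx S f (1 + ∑ P ∈ S, ((n P).natAbs : ℤ))
  have hlt : ∀ P ∈ S, n P + 1 ≤ 1 + ∑ P ∈ S, ((n P).natAbs : ℤ) := by
    intro P hP
    have h1 : ((n P).natAbs : ℤ) ≤ ∑ P ∈ S, ((n P).natAbs : ℤ) :=
      Finset.single_le_sum (f := fun P => ((n P).natAbs : ℤ)) (fun i _ => by positivity) hP
    have h2 := Int.le_natAbs (a := n P)
    omega
  have key : ∀ P ∈ S, g ≠ 0 ∧ P.ord g = n P := by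
    intro P hP
    have h1 : P.ge (g - f P) (P.ord (f P) + 1) := by
      rw [hf P]; exact (hg P hP).mono (hlt P hP)
    have e : g = f P + (g - f P) := by ring
    constructor
    · rw [e]; exact add_ne_zero_of_ge (hf0 P) h1
    · rw [e, ord_add_eq (hf0 P) h1, hf P]
  exact ⟨g, (key P0 hP0).1, fun P hP => (key P hP).2⟩

end Place

end Pool.Agent.H29
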