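import Mathlib

/-!
# Curves through their function fields: places, divisors, Riemann-Roch spaces, genus

All notions are the classical ones (Chevalley, Stichtenoth): a smooth projective connected curve
over an algebraically closed field `k` is encoded by its function field `F / k`, its closed points
by the normalised discrete valuations of `F / k`, and its line bundles by the divisors.
-/

namespace Pool.Agent.H29

/-- `F / k` is an algebraic function field of one variable: a finitely generated field extension
of transcendence degree one. -/
class IsFunctionField (k F : Type*) [Field k] [Field F] [Algebra k F] : Prop where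
  essFiniteType : Algebra.EssFiniteType k F
  trdeg_eq_one : Algebra.trdeg k F = 1

/-- A place of `F / k` (a closed point of the curve): a normalised discrete valuation
`ord : F → ℤ` which is trivial on the constants (with the convention `ord 0 = 0`, used only to
make `ord` determined by the valuation; see `Place.ge`). -/
structure Place (k F : Type*) [Field k] [Field F] [Algebra k F] where
  /-- the order of vanishing of a non-zero function at the place -/
  ord : F → ℤ
  ord_zero : ord 0 = 0
  ord_mul : ∀ f g : F, f ≠ 0 → g ≠ 0 → ord (f * g) = ord f + ord g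
  min_le_ord_add : ∀ f g : F, f ≠ 0 → g ≠ 0 → f + g ≠ 0 → min (ord f) (ord g) ≤ ord (f + g)
  ord_algebraMap : ∀ c : k, ord (algebraMap k F c) = 0
  exists_ord_eq_one : ∃ t : F, ord t = 1

variable {k F : Type*} [Field k] [Field F] [Algebra k F]

/-- `f` vanishes to order at least `n` at `P` (the zero function vanishes to every order). -/
def Place.ge (P : Place k F) (f : F) (n : ℤ) : Prop := f = 0 ∨ n ≤ P.ord f

lemma Place.ge_zero_elt (P : Place k F) (n : ℤ) : P.ge 0 n := Or.inl rfl

lemma Place.ge_add {P : Place k F} {f g : F} {n : ℤ} (hf : P.ge f n) (hg : P.ge g n) :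
    P.ge (f + g) n := by
  rcases eq_or_ne f 0 with rfl | hf0
  · simpa using hg
  rcases eq_or_ne g 0 with rfl | hg0
  · simpa using hf
  rcases eq_or_ne (f + g) 0 with h | h
  · exact Or.inl h
  · right
    have h1 := hf.resolve_left hf0
    have h2 := hg.resolve_left hg0
    exact (le_min h1 h2).trans (P.min_le_ord_add f g hf0 hg0 h)

lemma Place.ge_smul {P : Place k F} (c : k) {f : F} {n : ℤ} (hf : P.ge f n) :
    P.ge (c • f) n := by
  rcases eq_or_ne c 0 with rfl | hc
  · left; simp
  rcases eq_or_ne f 0 with rfl | hf0
  · left; simp
  right
  have hc' : algebraMap k F c ≠ 0 := by simpa using hc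
  rw [Algebra.smul_def, P.ord_mul _ _ hc' hf0, P.ord_algebraMap, zero_add]
  exact hf.resolve_left hf0

/-- A divisor: a finitely supported integer valued function on the set of places. -/
abbrev Divisor (k F : Type*) [Field k] [Field F] [Algebra k F] := Place k F →₀ ℤ

/-- The degree of a divisor (all places are rational when `k` is algebraically closed). -/
noncomputable def Divisor.degree (D : Divisor k F) : ℤ := D.sum fun _ n => n

/-- The Riemann-Roch space `L(D)`: the functions `f` with `ord_P f + D(P) ≥ 0` at all places `P`,
together with `0`; i.e. `H⁰(C, 𝒪(D))`. -/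
def Divisor.L (D : Divisor k F) : Submodule k F where
  carrier := {f | ∀ P : Place k F, P.ge f (-D P)}
  zero_mem' := fun P => P.ge_zero_elt _
  add_mem' := fun hf hg P => Place.ge_add (hf P) (hg P)
  smul_mem' := fun c _ hf P => Place.ge_smul c (hf P)

/-- `ℓ(D) = dim_k L(D) = h⁰(C, 𝒪(D))`. -/
noncomputable def Divisor.ell (D : Divisor k F) : ℕ := Module.finrank k D.L

variable (k F) in
/-- The genus of `F / k` is `g` (Riemann's definition): `g` is the greatest value of
`deg D + 1 - ℓ(D)` over all divisors `D`. -/
def HasGenus (g : ℤ) : Prop :=
  IsGreatest (Set.range fun D : Divisor k F => D.degree + 1 - (D.ell : ℤ)) g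

variable (k F) in
/-- The curve carries a `g^r_d`: there is a divisor (line bundle) of degree `d` with
`ℓ(D) ≥ r + 1`. -/
def HasLinearSeries (r d : ℤ) : Prop :=
  ∃ D : Divisor k F, D.degree = d ∧ r + 1 ≤ (D.ell : ℤ)

/-- A smooth projective connected curve over `ℂ`, given by its function field. -/
structure Curve where
  /-- the function field -/
  K : Type
  [field : Field K]
  [algebra : Algebra ℂ K]
  [isFunctionField : IsFunctionField ℂ K]

attribute [instance] Curve.field Curve.algebra Curve.isFunctionField

/-- The Brill-Noether locus `M^r_{g,d}` (as a set of curves): the curves of genus `g` which carry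
a `g^r_d`. -/
def BNSet (g r d : ℤ) : Set Curve := {C | HasGenus ℂ C.K g ∧ HasLinearSeries ℂ C.K r d}

/-- The Brill-Noether number `ρ(g, r, d) = g - (r + 1) (g - d + r)`. -/
def rho (g r d : ℤ) : ℤ := g - (r + 1) * (g - d + r)

/-- `M^r_{g,d}` is a Brill-Noether locus: `r ≥ 1`, `ρ(g, r, d) < 0` and it is not empty. -/
def IsBNLocus (g r d : ℤ) : Prop := 1 ≤ r ∧ rho g r d < 0 ∧ (BNSet g r d).Nonempty

end Pool.Agent.H29
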