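import Pool.Agent.H29.RR

/-! # The degree of a principal divisor is zero -/

namespace Pool.Agent.H29

open Polynomial

variable {k F : Type*} [Field k] [Field F] [Algebra k F]

/-- Index set: pairs `(P, j)` with `P ∈ S` and `0 ≤ j < ord_P x`. -/
abbrev ZIdx (x : F) (S : Finset (Place k F)) := Σ P : S, Fin (P.1.ord x).toNat

lemma exists_family (x : F) (S : Finset (Place k F)) :
    ∃ u : ZIdx x S → F, ∀ (i : ZIdx x S), u i ≠ 0 ∧ i.1.1.ord (u i) = (i.2 : ℕ) ∧
      (∀ Q ∈ S, Q ≠ i.1.1 → Q.ord (u i) = Q.ord x) ∧ ∀ Q ∈ S, 0 < Q.ord x → Q.ge (u i) 0 := by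
  classical
  have : ∀ i : ZIdx x S, ∃ g : F, g ≠ 0 ∧ ∀ Q ∈ S, Q.ord g =
      if Q = i.1.1 then ((i.2 : ℕ) : ℤ) else Q.ord x :=
    fun i => Place.exists_ord_eq_finset S _
  choose u hu0 hu using this
  refine ⟨u, fun i => ⟨hu0 i, ?_, ?_, ?_⟩⟩
  · rw [hu i _ i.1.2, if_pos rfl]
  · intro Q hQ hQi
    rw [hu i Q hQ, if_neg hQi]
  · intro Q hQ hpos
    right
    rw [hu i Q hQ]
    split_ifs
    · positivity
    · exact hpos.le

lemma coeffs_eq_zero (x : F) (S : Finset (Place k F)) (hS : ∀ P ∈ S, 0 < P.ord x)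
    (u : ZIdx x S → F) (hu : ∀ (i : ZIdx x S), u i ≠ 0 ∧ i.1.1.ord (u i) = (i.2 : ℕ) ∧
      (∀ Q ∈ S, Q ≠ i.1.1 → Q.ord (u i) = Q.ord x) ∧ ∀ Q ∈ S, 0 < Q.ord x → Q.ge (u i) 0)
    (c : ZIdx x S → k) (hc : ∀ P ∈ S, P.ge (∑ i, c i • u i) (P.ord x)) : c = 0 := by
  classical
  by_contra hne
  obtain ⟨⟨P, j⟩, hPj⟩ := Function.ne_iff.1 hne
  -- minimal `j` with a non zero coefficient at `P`
  have hex : ∃ n : ℕ, ∃ j : Fin (P.1.ord x).toNat, (j : ℕ) = n ∧ c ⟨P, j⟩ ≠ 0 := ⟨j, j, rfl, hPj⟩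
  obtain ⟨j₀, hj₀, hcj₀⟩ := Nat.find_spec hex
  have hmin : ∀ j : Fin (P.1.ord x).toNat, j < j₀ → c ⟨P, j⟩ = 0 := by
    intro j hj
    by_contra hcj
    have h1 := Nat.find_min hex (m := j) (by rw [← hj₀]; exact hj)
    exact h1 ⟨j, rfl, hcj⟩
  have hPx := hS P.1 P.2
  have hj₀lt : ((j₀ : ℕ) : ℤ) < P.1.ord x := by
    have := j₀.2
    omega
  -- split the sum
  have hsplit : ∑ i, c i • u i = c ⟨P, j₀⟩ • u ⟨P, j₀⟩ +
      ∑ i ∈ Finset.univ.erase ⟨P, j₀⟩, c i • u i :=
    (Finset.add_sum_erase _ _ (Finset.mem_univ _)).symm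
  have hrest : P.1.ge (∑ i ∈ Finset.univ.erase (⟨P, j₀⟩ : ZIdx x S), c i • u i)
      ((j₀ : ℕ) + 1) := by
    refine Place.ge.sum fun i hi => ?_
    obtain ⟨Q, j'⟩ := i
    have hne' := Finset.ne_of_mem_erase hi
    by_cases hQP : Q = P
    · subst hQP
      have hjne : j' ≠ j₀ := fun h => hne' (by rw [h])
      rcases lt_or_gt_of_ne hjne with h | h
      · left
        rw [hmin j' h, zero_smul]
      · refine Place.ge.smul ?_ _
        right
        rw [(hu ⟨Q, j'⟩).2.1]
        have : (j₀ : ℕ) < j' := h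
        simp only
        omega
    · refine Place.ge.smul ?_ _
      right
      have hne2 : P.1 ≠ Q.1 := fun h => hQP (Subtype.ext h.symm)
      rw [(hu ⟨Q, j'⟩).2.2.1 P.1 P.2 hne2]
      omega
  have hord : P.1.ord (c ⟨P, j₀⟩ • u ⟨P, j₀⟩) = (j₀ : ℕ) := by
    have hne0 : algebraMap k F (c ⟨P, j₀⟩) ≠ 0 := by simpa using hcj₀
    rw [Algebra.smul_def, P.1.ord_mul _ _ hne0 (hu _).1, P.1.ord_algebraMap, zero_add,
      (hu ⟨P, j₀⟩).2.1]
  have hne1 : c ⟨P, j₀⟩ • u ⟨P, j₀⟩ ≠ 0 := smul_ne_zero hcj₀ (hu _).1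
  have h1 := hc P.1 P.2
  rw [hsplit] at h1
  have h2 : P.1.ge (∑ i ∈ Finset.univ.erase (⟨P, j₀⟩ : ZIdx x S), c i • u i)
      (P.1.ord (c ⟨P, j₀⟩ • u ⟨P, j₀⟩) + 1) := by rw [hord]; exact hrest
  have h3 := Place.add_ne_zero_of_ge hne1 h2
  have h4 := Place.ord_add_eq hne1 h2
  have h5 := h1.le h3
  rw [h4, hord] at h5
  omega

lemma polys_eq_zero (x : F) (hx : x ≠ 0) (S : Finset (Place k F)) (hS : ∀ P ∈ S, 0 < P.ord x)
    (u : ZIdx x S → F) (hu : ∀ (i : ZIdx x S), u i ≠ 0 ∧ i.1.1.ord (u i) = (i.2 : ℕ) ∧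
      (∀ Q ∈ S, Q ≠ i.1.1 → Q.ord (u i) = Q.ord x) ∧ ∀ Q ∈ S, 0 < Q.ord x → Q.ge (u i) 0) :
    ∀ (n : ℕ) (p : ZIdx x S → k[X]), (∀ i, (p i).natDegree ≤ n) →
      ∑ i, aeval x (p i) * u i = 0 → ∀ i, p i = 0 := by
  have core : ∀ p : ZIdx x S → k[X], ∑ i, aeval x (p i) * u i = 0 → ∀ i, (p i).coeff 0 = 0 := by
    intro p hp
    have h0 : (fun i => (p i).coeff 0) = 0 := by
      refine coeffs_eq_zero x S hS u hu _ fun P hP => ?_
      have e : ∑ i, (p i).coeff 0 • u i = -∑ i, (x * aeval x (p i).divX) * u i := by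
        rw [← Finset.sum_neg_distrib, ← sub_eq_zero, ← Finset.sum_sub_distrib]
        rw [← hp]
        refine Finset.sum_congr rfl fun i _ => ?_
        conv_rhs => rw [← divX_mul_X_add (p i)]
        rw [map_add, map_mul, aeval_X, aeval_C, Algebra.smul_def]
        ring
      rw [e]
      refine Place.ge.neg (Place.ge.sum fun i _ => ?_)
      have h1 : P.ge x (P.ord x) := P.ge_ord x
      have h2 : P.ge (aeval x (p i).divX) 0 := P.ge_aeval (Or.inr (hS P hP).le) _
      have h3 : P.ge (u i) 0 := (hu i).2.2.2 P hP (hS P hP)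
      exact ((h1.mul h2).mul h3).mono (by omega)
    intro i
    exact congrFun h0 i
  intro n
  induction n with
  | zero =>
    intro p hn hp i
    rw [eq_C_of_natDegree_le_zero (hn i), core p hp i, C_0]
  | succ n ih =>
    intro p hn hp i
    have hc := core p hp
    have e : ∀ i, p i = (p i).divX * X := by
      intro i
      conv_lhs => rw [← divX_mul_X_add (p i), hc i, C_0, add_zero]
    have h1 : ∀ i, (p i).divX = 0 := by
      refine ih (fun i => (p i).divX) (fun i => ?_) ?_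
      · rw [natDegree_divX_eq_natDegree_tsub_one]
        have := hn i
        omega
      · have h2 : x * ∑ i, aeval x (p i).divX * u i = 0 := by
          rw [Finset.mul_sum, ← hp]
          refine Finset.sum_congr rfl fun i _ => ?_
          conv_rhs => rw [e i]
          rw [map_mul, aeval_X]
          ring
        exact (mul_eq_zero.1 h2).resolve_left hx
    rw [e i, h1 i, zero_mul]

open scoped IntermediateField.algebraAdjoinAdjoin in
/-- The number of zeros of `x`, counted with multiplicity, is at most `[F : k(x)]`. -/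
theorem sum_ord_le [IsFunctionField k F] {x : F} (hx : Transcendental k x)
    (S : Finset (Place k F)) (hS : ∀ P ∈ S, 0 < P.ord x) :
    ∑ P ∈ S, P.ord x ≤ Module.finrank (IntermediateField.adjoin k {x}) F := by
  classical
  have hx0 : x ≠ 0 := by
    rintro rfl
    exact hx isAlgebraic_zero
  obtain ⟨u, hu⟩ := exists_family x S
  have hlin : LinearIndependent (Algebra.adjoin k {x}) u := by
    rw [Fintype.linearIndependent_iff]
    intro g hg
    have hsur : ∀ i, ∃ p : k[X], aeval x p = (g i : F) := by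
      intro i
      have h1 := (g i).2
      have h2 : (g i : F) ∈ (aeval x : k[X] →ₐ[k] F).range := by
        rw [← Algebra.adjoin_singleton_eq_range_aeval]; exact h1
      exact h2
    choose p hp using hsur
    have hzero : ∀ i, p i = 0 := by
      refine polys_eq_zero x hx0 S hS u hu (∑ i, (p i).natDegree) p (fun i => ?_) ?_
      · exact Finset.single_le_sum (f := fun i => (p i).natDegree)
          (fun _ _ => Nat.zero_le _) (Finset.mem_univ i)
      · rw [← hg]
        refine Finset.sum_congr rfl fun i _ => ?_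
        rw [hp i]
        rfl
    intro i
    apply Subtype.ext
    rw [← hp i, hzero i, map_zero]
    rfl
  have hlin2 : LinearIndependent (IntermediateField.adjoin k {x}) u :=
    (LinearIndependent.iff_fractionRing (Algebra.adjoin k {x})
      (IntermediateField.adjoin k {x})).1 hlin
  have hfd := finiteDimensional_adjoin_of_transcendental hx
  have hcard := hlin2.fintype_card_le_finrank
  have hcard2 : ((Fintype.card (ZIdx x S) : ℕ) : ℤ) = ∑ P ∈ S, P.ord x := by
    rw [Fintype.card_sigma]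
    push_cast
    rw [← Finset.sum_coe_sort S]
    refine Finset.sum_congr rfl fun P _ => ?_
    rw [Fintype.card_fin, Int.toNat_of_nonneg (hS P.1 P.2).le]
  rw [← hcard2]
  exact_mod_cast hcard

/-- A transcendental function has finitely many zeros. -/
theorem finite_zeros [IsFunctionField k F] {x : F} (hx : Transcendental k x) :
    {P : Place k F | 0 < P.ord x}.Finite := by
  by_contra hinf
  obtain ⟨S, hS, hcard⟩ := Set.Infinite.exists_subset_card_eq hinf
    (Module.finrank (IntermediateField.adjoin k {x}) F + 1)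
  have h1 := sum_ord_le hx S (fun P hP => hS hP)
  have h2 : (S.card : ℤ) ≤ ∑ P ∈ S, P.ord x := by
    rw [Finset.card_eq_sum_ones]
    push_cast
    exact Finset.sum_le_sum fun P hP => by have := hS hP; simp only [Set.mem_ofPred_eq] at this; omega
  rw [hcard] at h2
  push_cast at h2
  omega

end Pool.Agent.H29
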