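import Pool.Agent.H29.Places

/-! # Existence of places -/

namespace Pool.Agent.H29

open WithZero IsDedekindDomain

variable {k F : Type*} [Field k] [Field F] [Algebra k F]

/-- The place attached to a discrete valuation with values in `ℤᵐ⁰`. -/
noncomputable def Place.ofValuation (v : Valuation F ℤᵐ⁰) (hk : ∀ c : k, c ≠ 0 →
    v (algebraMap k F c) = 1) (hs : ∃ t : F, v t = exp (-1 : ℤ)) : Place k F where
  ord f := -log (v f)
  ord_zero := by simp
  ord_mul f g hf hg := by
    rw [map_mul, log_mul ((Valuation.ne_zero_iff v).2 hf) ((Valuation.ne_zero_iff v).2 hg)]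
    ring
  min_le_ord_add f g hf hg hfg := by
    have hf' := (Valuation.ne_zero_iff v).2 hf
    have hg' := (Valuation.ne_zero_iff v).2 hg
    have hfg' := (Valuation.ne_zero_iff v).2 hfg
    have h := v.map_add f g
    rcases le_max_iff.1 h with h1 | h1
    · have := (log_le_log hfg' hf').2 h1
      exact (min_le_left _ _).trans (by omega)
    · have := (log_le_log hfg' hg').2 h1
      exact (min_le_right _ _).trans (by omega)
  ord_algebraMap c := by
    rcases eq_or_ne c 0 with rfl | hc
    · simp
    · rw [hk c hc]; simp
  exists_ord_eq_one := by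
    obtain ⟨t, ht⟩ := hs
    exact ⟨t, by rw [ht]; simp⟩

lemma Place.ofValuation_ord (v : Valuation F ℤᵐ⁰) (hk : ∀ c : k, c ≠ 0 →
    v (algebraMap k F c) = 1) (hs : ∃ t : F, v t = exp (-1 : ℤ)) (f : F) :
    (Place.ofValuation v hk hs).ord f = -log (v f) := rfl

/-- A prime element of a Dedekind domain `A` with fraction field below `F` has a zero. -/
lemma exists_place_of_prime {A B : Type*} [CommRing A] [CommRing B] [IsDedekindDomain B]
    [Algebra A B] [Algebra B F] [IsFractionRing B F] [Algebra.IsIntegral A B]
    (hinj : Function.Injective (algebraMap A B))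
    (hk : ∀ c : k, ∃ b : B, algebraMap B F b = algebraMap k F c) {y : A} (hy : Prime y) :
    ∃ P : Place k F, 0 < P.ord (algebraMap B F (algebraMap A B y)) := by
  have hPprime : (Ideal.span {y}).IsPrime := by
    rw [Ideal.span_singleton_prime hy.ne_zero]
    exact hy
  obtain ⟨Q, -, hQ, hQP⟩ := Ideal.exists_ideal_over_prime_of_isIntegral
    (S := B) (Ideal.span {y}) ⊥ (by
      rw [← RingHom.ker_eq_comap_bot, (RingHom.injective_iff_ker_eq_bot _).1 hinj]
      exact bot_le)
  have hyQ : algebraMap A B y ∈ Q := by
    rw [← Ideal.mem_comap, hQP]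
    exact Ideal.mem_span_singleton_self y
  have hy'0 : algebraMap A B y ≠ 0 := by
    intro h
    exact hy.ne_zero (hinj (by rw [h, map_zero]))
  let v : HeightOneSpectrum B := ⟨Q, hQ, fun h => hy'0 (by rw [h] at hyQ; simpa using hyQ)⟩
  have hk1 : ∀ c : k, v.valuation F (algebraMap k F c) ≤ 1 := by
    intro c
    obtain ⟨b, hb⟩ := hk c
    rw [← hb]
    exact v.valuation_le_one _
  have hk : ∀ c : k, c ≠ 0 → v.valuation F (algebraMap k F c) = 1 := by
    intro c hc
    apply le_antisymm (hk1 c)
    have h1 := hk1 c⁻¹
    rw [map_inv₀, map_inv₀] at h1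
    have h2 : v.valuation F (algebraMap k F c) ≠ 0 := by
      rw [Valuation.ne_zero_iff]; simpa using hc
    exact (inv_le_one₀ (zero_lt_iff.2 h2)).1 h1
  refine ⟨Place.ofValuation (v.valuation F) hk (v.valuation_exists_uniformizer F), ?_⟩
  rw [Place.ofValuation_ord]
  have h1 : v.valuation F (algebraMap B F (algebraMap A B y)) < 1 := by
    rw [v.valuation_lt_one_iff_mem]
    exact hyQ
  have hy0 : algebraMap B F (algebraMap A B y) ≠ 0 := by
    intro h
    exact hy'0 (IsFractionRing.injective B F (by rw [h, map_zero]))
  have h2 : v.valuation F (algebraMap B F (algebraMap A B y)) ≠ 0 :=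
    (Valuation.ne_zero_iff _).2 hy0
  have h3 : log (v.valuation F (algebraMap B F (algebraMap A B y))) < log (1 : ℤᵐ⁰) :=
    (log_lt_log h2 one_ne_zero).2 h1
  rw [log_one] at h3
  omega

open scoped IntermediateField.algebraAdjoinAdjoin in
/-- Every transcendental function has a zero. -/
theorem exists_place_pos [CharZero k] [IsFunctionField k F] {y : F} (hy : Transcendental k y) :
    ∃ P : Place k F, 0 < P.ord y := by
  have hPID : IsPrincipalIdealRing (Algebra.adjoin k {y}) :=
    IsPrincipalIdealRing.of_surjective
      (Polynomial.algEquivOfTranscendental k y hy).toRingEquiv.toRingHom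
      (Polynomial.algEquivOfTranscendental k y hy).surjective
  have hDed : IsDedekindDomain (Algebra.adjoin k {y}) := inferInstance
  have hfd : FiniteDimensional (IntermediateField.adjoin k {y}) F :=
    finiteDimensional_adjoin_of_transcendental hy
  have hcz : CharZero (IntermediateField.adjoin k {y}) :=
    charZero_of_injective_algebraMap (algebraMap k (IntermediateField.adjoin k {y})).injective
  have hsep : Algebra.IsSeparable (IntermediateField.adjoin k {y}) F := inferInstance
  have hDedB : IsDedekindDomain (integralClosure (Algebra.adjoin k {y}) F) :=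
    integralClosure.isDedekindDomain (Algebra.adjoin k {y}) (IntermediateField.adjoin k {y}) F
  have hfracB : IsFractionRing (integralClosure (Algebra.adjoin k {y}) F) F :=
    integralClosure.isFractionRing_of_finite_extension (IntermediateField.adjoin k {y}) F
  have hinj : Function.Injective (algebraMap (Algebra.adjoin k {y})
      (integralClosure (Algebra.adjoin k {y}) F)) := by
    intro a b hab
    have := congrArg (algebraMap (integralClosure (Algebra.adjoin k {y}) F) F) hab
    exact Subtype.ext this
  have hey : (Polynomial.algEquivOfTranscendental k y hy) Polynomial.X =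
      ⟨y, Algebra.self_mem_adjoin_singleton k y⟩ :=
    Polynomial.algEquivOfTranscendental_apply_X k y hy
  have hprime : Prime (⟨y, Algebra.self_mem_adjoin_singleton k y⟩ : Algebra.adjoin k {y}) := by
    rw [← hey]
    exact (MulEquiv.prime_iff (Polynomial.algEquivOfTranscendental k y hy).toMulEquiv).2
      Polynomial.prime_X
  exact exists_place_of_prime (F := F) (k := k) hinj (fun c =>
    ⟨algebraMap (Algebra.adjoin k {y}) _ (algebraMap k _ c), rfl⟩) hprime

end Pool.Agent.H29
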