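import Pool.Agent.H29.VeryAmple

/-! # The genus bound for divisors separating points and tangent vectors -/

namespace Pool.Agent.H29

open Polynomial

variable {k F : Type*} [Field k] [Field F] [Algebra k F]

namespace VeryAmple

/-- Functions vanishing on the subscheme `D` (at the points of the support of `D`). -/
def I (D : Divisor k F) : Submodule k F where
  carrier := {f | ∀ P ∈ D.support, P.ge f (D P)}
  zero_mem' := fun P _ => P.ge_zero_elt _
  add_mem' := fun hf hg P hP => (hf P hP).add (hg P hP)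
  smul_mem' := fun c _ hf P hP => (hf P hP).smul c

lemma mem_I {D : Divisor k F} {f : F} : f ∈ I D ↔ ∀ P ∈ D.support, P.ge f (D P) := Iff.rfl

/-- The map `f ↦ f / x^(m+1)` from `L((m+1) D)` to the functions modulo `I D`. -/
noncomputable def psi (D : Divisor k F) (x : F) (m : ℕ) :
    ((m + 1) • D).L →ₗ[k] F ⧸ I D :=
  ((I D).mkQ ∘ₗ LinearMap.mulLeft k ((x ^ (m + 1))⁻¹)).domRestrict ((m + 1) • D).L

lemma psi_apply (D : Divisor k F) (x : F) (m : ℕ) (f : ((m + 1) • D).L) :
    psi D x m f = (I D).mkQ ((x ^ (m + 1))⁻¹ * f) := rfl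

/-- The image of `psi`. -/
noncomputable def W (D : Divisor k F) (x : F) (m : ℕ) : Submodule k (F ⧸ I D) :=
  LinearMap.range (psi D x m)

lemma mem_W {D : Divisor k F} {x : F} {m : ℕ} {q : F ⧸ I D} :
    q ∈ W D x m ↔ ∃ f ∈ ((m + 1) • D).L, (I D).mkQ ((x ^ (m + 1))⁻¹ * f) = q := by
  unfold W
  rw [LinearMap.mem_range]
  constructor
  · rintro ⟨f, hf⟩
    exact ⟨f, f.2, hf⟩
  · rintro ⟨f, hf, hf2⟩
    exact ⟨⟨f, hf⟩, hf2⟩

section

variable {D : Divisor k F} {x y : F}

lemma ker_psi (hx : x ≠ 0) (hxD : ∀ P ∈ D.support, P.ord x = -D P) (m : ℕ) :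
    LinearMap.ker (psi D x m) = (m • D).L.comap ((m + 1) • D).L.subtype := by
  ext f
  rw [LinearMap.mem_ker, psi_apply, Submodule.mkQ_apply, Submodule.Quotient.mk_eq_zero,
    Submodule.mem_comap, Submodule.subtype_apply]
  constructor
  · intro h P
    by_cases hP : P ∈ D.support
    · have h1 := (P.ge_ord (x ^ (m + 1))).mul (h P hP)
      rw [mul_inv_cancel_left₀ (pow_ne_zero _ hx), P.ord_pow, hxD P hP] at h1
      refine h1.mono ?_
      rw [Finsupp.smul_apply, nsmul_eq_mul]
      push_cast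
      linarith
    · have h1 := f.2 P
      rw [Finsupp.notMem_support_iff] at hP
      rw [Finsupp.smul_apply, hP, smul_zero] at h1 ⊢
      exact h1
  · intro h P hP
    have h1 := (P.ge_ord (x ^ (m + 1))⁻¹).mul (h P)
    rw [P.ord_inv, P.ord_pow, hxD P hP, Finsupp.smul_apply, nsmul_eq_mul] at h1
    refine h1.mono ?_
    push_cast
    linarith

variable [IsAlgClosed k] [CharZero k] [IsFunctionField k F]

lemma finrank_W (hD0 : 0 ≤ D) (hx : x ≠ 0) (hxD : ∀ P ∈ D.support, P.ord x = -D P) (m : ℕ) :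
    Module.finrank k (W D x m) + (m • D).ell = ((m + 1) • D).ell := by
  have h1 := LinearMap.finrank_range_add_finrank_ker (psi D x m)
  rw [ker_psi hx hxD m] at h1
  have hle : (m • D).L ≤ ((m + 1) • D).L := Divisor.L_mono (by
    rw [succ_nsmul]; exact le_add_of_nonneg_right hD0)
  have h2 := (Submodule.comapSubtypeEquivOfLe hle).finrank_eq
  rw [h2] at h1
  exact h1

instance (m : ℕ) : FiniteDimensional k (W D x m) := by
  unfold W; infer_instance

lemma W_le_succ (hx : x ≠ 0) (hxL : x ∈ D.L) (m : ℕ) : W D x m ≤ W D x (m + 1) := by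
  intro q hq
  obtain ⟨f, hf, rfl⟩ := mem_W.1 hq
  rw [mem_W]
  refine ⟨f * x, ?_, ?_⟩
  · rw [succ_nsmul]
    exact Divisor.mul_mem_L hf hxL
  · congr 1
    field_simp
    ring

lemma z_mul_mem_W (hx : x ≠ 0) (hy : y ∈ D.L) (m : ℕ) {f : F} (hf : f ∈ ((m + 1) • D).L) :
    (I D).mkQ (y / x * ((x ^ (m + 1))⁻¹ * f)) ∈ W D x (m + 1) := by
  rw [mem_W]
  refine ⟨f * y, ?_, ?_⟩
  · rw [succ_nsmul]
    exact Divisor.mul_mem_L hf hy
  · congr 1
    field_simp
    ring

lemma pow_mem_W (hx : x ≠ 0) (hxL : x ∈ D.L) (hxD : ∀ P ∈ D.support, P.ord x = -D P)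
    (hy : y ∈ D.L) (m : ℕ) (h : W D x (m + 1) ≤ W D x m) (j : ℕ) :
    (I D).mkQ ((y / x) ^ j) ∈ W D x m := by
  induction j with
  | zero =>
    rw [mem_W]
    refine ⟨x ^ (m + 1), ?_, ?_⟩
    · clear h
      induction m with
      | zero => simpa using hxL
      | succ m ih =>
        rw [succ_nsmul, pow_succ]
        exact Divisor.mul_mem_L ih hxL
    · rw [pow_zero, inv_mul_cancel₀ (pow_ne_zero _ hx)]
  | succ j ih =>
    obtain ⟨f, hf, hfz⟩ := mem_W.1 ih
    apply h
    have h1 := z_mul_mem_W hx hy m hf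
    have h2 : (I D).mkQ ((y / x) ^ (j + 1)) = (I D).mkQ (y / x * ((x ^ (m + 1))⁻¹ * f)) := by
      rw [Submodule.mkQ_apply, Submodule.mkQ_apply, Submodule.Quotient.eq]
      rw [Submodule.mkQ_apply, Submodule.mkQ_apply, Submodule.Quotient.eq] at hfz
      intro P hP
      have e : (y / x) ^ (j + 1) - y / x * ((x ^ (m + 1))⁻¹ * f) =
          -(y / x) * ((x ^ (m + 1))⁻¹ * f - (y / x) ^ j) := by ring
      rw [e]
      have h3 := (z_ge hx hxD hy hP).neg.mul (hfz P hP)
      rwa [zero_add] at h3
    rw [h2]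
    exact h1

lemma linearIndependent_pow_z (hx : x ≠ 0) (hxL : x ∈ D.L)
    (hxD : ∀ P ∈ D.support, P.ord x = -D P) (hy : y ∈ D.L) (hne : D.support.Nonempty)
    (hy2 : ∀ P ∈ D.support, ∀ Q ∈ D.support,
      ∀ c : k, y - c • x ∉ (D - Finsupp.single P 1 - Finsupp.single Q 1).L)
    {n : ℕ} (hn : D.degree = n) :
    LinearIndependent k (fun j : Fin n => (I D).mkQ ((y / x) ^ (j : ℕ))) := by
  rw [Fintype.linearIndependent_iff]
  intro c hc
  set h : k[X] := ∑ j : Fin n, C (c j) * X ^ (j : ℕ) with hh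
  have haev : aeval (y / x) h = ∑ j : Fin n, c j • (y / x) ^ (j : ℕ) := by
    rw [hh, map_sum]
    refine Finset.sum_congr rfl fun j _ => ?_
    rw [map_mul, map_pow, aeval_C, aeval_X, Algebra.smul_def]
  have hmem : aeval (y / x) h ∈ I D := by
    rw [haev, ← Submodule.Quotient.mk_eq_zero, ← Submodule.mkQ_apply, map_sum, ← hc]
    refine Finset.sum_congr rfl fun j _ => ?_
    rw [map_smul]
  have hcoeff : ∀ j : Fin n, h.coeff j = c j := by
    intro j
    rw [hh, finsetSum_coeff, Finset.sum_eq_single j]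
    · simp
    · intro b _ hb
      rw [coeff_C_mul, coeff_X_pow, if_neg (fun h => hb (Fin.ext h.symm)), mul_zero]
    · intro h; exact absurd (Finset.mem_univ j) h
  have hdeg : h.degree < n := by
    refine (degree_sum_le _ _).trans_lt ?_
    rw [Finset.sup_lt_iff (by exact WithBot.bot_lt_coe n)]
    intro j _
    refine (degree_C_mul_X_pow_le _ _).trans_lt ?_
    exact_mod_cast j.2
  by_cases h0 : h = 0
  · intro j
    rw [← hcoeff j, h0, coeff_zero]
  · exfalso
    obtain ⟨h1, h2⟩ := sum_ord_aeval_le hx hxL hxD hy hne hy2 h.natDegree h h0 le_rfl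
    have h3 : D.degree ≤ ∑ P ∈ D.support, P.ord (aeval (y / x) h) := by
      rw [Divisor.degree_eq_sum]
      exact Finset.sum_le_sum fun P hP => (hmem P hP).le h1
    have h4 : h.natDegree < n := by
      rwa [degree_eq_natDegree h0, Nat.cast_lt] at hdeg
    rw [hn] at h3
    omega

lemma min_le_finrank_W (hx : x ≠ 0) (hxL : x ∈ D.L)
    (hxD : ∀ P ∈ D.support, P.ord x = -D P) (hy : y ∈ D.L) (hne : D.support.Nonempty)
    (hy2 : ∀ P ∈ D.support, ∀ Q ∈ D.support,
      ∀ c : k, y - c • x ∉ (D - Finsupp.single P 1 - Finsupp.single Q 1).L)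
    {n : ℕ} (hn : D.degree = n) (m : ℕ) :
    min n (Module.finrank k (W D x m) + 1) ≤ Module.finrank k (W D x (m + 1)) := by
  by_cases h : W D x (m + 1) ≤ W D x m
  · refine (min_le_left _ _).trans ?_
    have hlin := linearIndependent_pow_z hx hxL hxD hy hne hy2 hn
    have hlin2 : LinearIndependent k (fun j : Fin n =>
        (⟨(I D).mkQ ((y / x) ^ (j : ℕ)), W_le_succ hx hxL m
          (pow_mem_W hx hxL hxD hy m h j)⟩ : W D x (m + 1))) :=
      LinearIndependent.of_comp (W D x (m + 1)).subtype hlin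
    have := hlin2.fintype_card_le_finrank
    rwa [Fintype.card_fin] at this
  · refine (min_le_right _ _).trans ?_
    have hlt : W D x m < W D x (m + 1) :=
      lt_of_le_not_ge (W_le_succ hx hxL m) h
    exact Submodule.finrank_lt_finrank_of_lt hlt

/-- A divisor `D ≥ 0` of degree `n` which separates points and tangent vectors and has
`ℓ(D) = r + 1` forces `deg A + 1 - ℓ(A) ≤ (n - r) (n - r + 1) / 2` for all divisors `A`. -/
theorem two_mul_le (hD0 : 0 ≤ D) (hva : VeryAmple D) {n r : ℕ} (hn : D.degree = n)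
    (hr : D.ell = r + 1) (hrn : r ≤ n) (A : Divisor k F) :
    2 * (A.degree + 1 - (A.ell : ℤ)) ≤ ((n : ℤ) - r) * ((n : ℤ) - r + 1) := by
  classical
  obtain ⟨P₀, -⟩ := exists_place (k := k) (F := F)
  have hne : D.support.Nonempty := by
    rw [Finsupp.support_nonempty_iff]
    rintro rfl
    have h1 := hva P₀ P₀
    rw [Divisor.ell_zero] at h1
    omega
  obtain ⟨x, hxL, hx, hxD⟩ := exists_x hva
  obtain ⟨y, hy, hy2⟩ := exists_y hva x
  have ha0 : Module.finrank k (W D x 0) = r := by
    have h1 := finrank_W hD0 hx hxD 0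
    rw [zero_smul, Divisor.ell_zero, zero_add, one_smul, hr] at h1
    omega
  have ha : ∀ m, min n (r + m) ≤ Module.finrank k (W D x m) := by
    intro m
    induction m with
    | zero => rw [ha0]; exact min_le_right _ _
    | succ m ih =>
      have h1 := min_le_finrank_W hx hxL hxD hy hne hy2 hn m
      omega
  set N := n - r with hN
  obtain ⟨T, hT⟩ : ∃ T : ℕ, N * (N + 1) = 2 * T := by
    obtain ⟨T, hT⟩ := Nat.even_mul_succ_self N
    exact ⟨T, by omega⟩
  have key : ∀ m : ℕ, 2 * ((m : ℤ) * n - (m • D).ell + 1) + ((N - m : ℕ) : ℤ) * ((N - m : ℕ) + 1)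
      ≤ N * (N + 1) := by
    intro m
    induction m with
    | zero =>
      rw [zero_smul, Divisor.ell_zero]
      push_cast
      simp
    | succ m ih =>
      have h1 := finrank_W hD0 hx hxD m
      have h2 := ha m
      have h3 : ((((m + 1) • D).ell : ℕ) : ℤ) = Module.finrank k (W D x m) + (m • D).ell := by
        exact_mod_cast h1.symm
      rw [h3]
      rcases Nat.lt_or_ge m N with hmN | hmN
      · have e1 : N - m = (N - (m + 1)) + 1 := by omega
        set t := N - (m + 1) with ht
        rw [e1] at ih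
        have h4 : (n : ℤ) - Module.finrank k (W D x m) ≤ t + 1 := by omega
        push_cast at ih ⊢
        nlinarith
      · have e1 : N - m = 0 := by omega
        have e2 : N - (m + 1) = 0 := by omega
        rw [e1] at ih
        rw [e2]
        have h4 : (n : ℤ) - Module.finrank k (W D x m) ≤ 0 := by omega
        push_cast at ih ⊢
        linarith
  have hdeg : 0 < D.degree := by
    have h1 : D.degree ≠ 0 := fun h => by
      rw [Divisor.eq_zero_of_degree_eq_zero hD0 h] at hne
      simp at hne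
    have h2 := Divisor.degree_nonneg hD0
    omega
  have hA := degree_sub_ell_le (γ := (T : ℤ) - 1) hdeg (Filter.Eventually.of_forall fun m => by
    have h1 := key m
    rw [Divisor.degree_nsmul, hn]
    have h2 : (0 : ℤ) ≤ ((N - m : ℕ) : ℤ) * ((N - m : ℕ) + 1) := by positivity
    have h3 : (N : ℤ) * (N + 1) = 2 * T := by exact_mod_cast hT
    linarith) A
  have h3 : (N : ℤ) * (N + 1) = 2 * T := by exact_mod_cast hT
  have h4 : (N : ℤ) = n - r := by omega
  rw [h4] at h3
  linarith

end

end VeryAmple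

section

variable [IsAlgClosed k] [CharZero k] [IsFunctionField k F]

/-- If the genus is larger than `(d - r) (d - r + 1) / 2`, a `g^r_d` is not very ample, so that
there is a `g^(r-1)_(d-2)`. -/
theorem exists_drop {g d r : ℤ} (hg : HasGenus k F g) (hr : 1 ≤ r)
    (h : HasLinearSeries k F r d) (hlt : (d - r) * (d - r + 1) < 2 * g) :
    HasLinearSeries k F (r - 1) (d - 2) := by
  obtain ⟨D, hD, hell⟩ := h
  by_contra hcon
  unfold HasLinearSeries at hcon
  push Not at hcon
  have hpos : 0 < D.ell := by omega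
  obtain ⟨z, hz, hz0⟩ := exists_effective hpos
  have hdeg : (D + div z).degree = d := by
    rw [Divisor.degree_add, degree_div, add_zero, hD]
  have hell' : (D + div z).ell = D.ell := ell_add_div D hz
  have hva : VeryAmple (D + div z) := by
    intro P Q
    have h1 := hcon (D + div z - Finsupp.single P 1 - Finsupp.single Q 1) (by
      rw [Divisor.degree_sub, Divisor.degree_sub, Divisor.degree_single, Divisor.degree_single,
        hdeg]
      ring)
    rw [hell']
    omega
  have hle := Divisor.ell_le_degree_add_one hz0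
  rw [hell', hdeg] at hle
  obtain ⟨n, hn⟩ : ∃ n : ℕ, (n : ℤ) = d := ⟨d.toNat, Int.toNat_of_nonneg (by omega)⟩
  obtain ⟨r', hr'⟩ : ∃ r' : ℕ, D.ell = r' + 1 := ⟨D.ell - 1, by omega⟩
  have hrr : r ≤ r' := by omega
  have hrn : r' ≤ n := by omega
  obtain ⟨⟨A, hA⟩, -⟩ := hg
  have h1 := VeryAmple.two_mul_le hz0 hva (n := n) (r := r') (by rw [hdeg, hn])
    (by rw [hell', hr']) hrn A
  simp only at hA
  rw [hA] at h1
  have h2 : (0 : ℤ) ≤ (n : ℤ) - r' := by omega
  have h3 : (n : ℤ) - r' ≤ d - r := by omega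
  nlinarith

/-- Iterating `exists_drop`. -/
theorem exists_drop_iterate {g : ℤ} (hg : HasGenus k F g) : ∀ (j : ℕ) {d r : ℤ}, (j : ℤ) ≤ r - 1 →
    HasLinearSeries k F r d → r ≤ d → (d - r) * (d - r + 1) < 2 * g →
    HasLinearSeries k F (r - j) (d - 2 * j) := by
  intro j
  induction j with
  | zero => intro d r _ h _ _; simpa using h
  | succ j ih =>
    intro d r hj h hrd hlt
    push_cast at hj
    have h1 := exists_drop hg (by omega) h hlt
    rcases lt_or_ge d (r + 1) with hdr | hdr
    · -- `d = r`: the bound still decreases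
      have h2 := ih (d := d - 2) (r := r - 1) (by omega) h1
      by_cases h3 : r - 1 ≤ d - 2
      · omega
      · -- `d - 2 < r - 1`: a series of degree smaller than its dimension does not exist
        exfalso
        obtain ⟨D, hD, hell⟩ := h1
        have hpos : 0 < D.ell := by omega
        obtain ⟨z, hz, hz0⟩ := exists_effective hpos
        have hle := Divisor.ell_le_degree_add_one hz0
        rw [ell_add_div D hz, Divisor.degree_add, degree_div, add_zero, hD] at hle
        omega
    · have h2 := ih (d := d - 2) (r := r - 1) (by omega) h1 (by omega) (by nlinarith)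
      have e1 : r - 1 - (j : ℤ) = r - ((j + 1 : ℕ) : ℤ) := by push_cast; ring
      have e2 : d - 2 - 2 * (j : ℤ) = d - 2 * ((j + 1 : ℕ) : ℤ) := by push_cast; ring
      rwa [e1, e2] at h2

end

end Pool.Agent.H29
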