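import Pool.Agent.H29.Hyperelliptic

/-! # Construction of hyperelliptic function fields -/

namespace Pool.Agent.H29

open Polynomial

variable {k : Type} [Field k]

/-- The polynomial `Y² - f` over `k(x)`. -/
noncomputable def hyperPoly (f : k[X]) : (RatFunc k)[X] :=
  X ^ 2 - C (algebraMap k[X] (RatFunc k) f)

lemma hyperPoly_irreducible {f : k[X]} {g : ℕ} (hdeg : f.natDegree = 2 * g + 1) :
    Irreducible (hyperPoly f) := by
  unfold hyperPoly
  refine X_pow_sub_C_irreducible_of_prime Nat.prime_two fun b hb => ?_
  have hf : f ≠ 0 := by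
    rintro rfl
    simp at hdeg
  have hf' : algebraMap k[X] (RatFunc k) f ≠ 0 := by
    simpa using hf
  have hb0 : b ≠ 0 := by
    rintro rfl
    apply hf'
    rw [← hb]; ring
  have h1 := congrArg RatFunc.intDegree hb
  rw [pow_two, RatFunc.intDegree_mul hb0 hb0, RatFunc.intDegree_polynomial, hdeg] at h1
  push_cast at h1
  omega

lemma hyperPoly_monic (f : k[X]) : (hyperPoly f).Monic := monic_X_pow_sub_C _ two_ne_zero

lemma hyperPoly_natDegree (f : k[X]) : (hyperPoly f).natDegree = 2 := natDegree_X_pow_sub_C

/-- The hyperelliptic function field. -/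
abbrev HyperField (f : k[X]) : Type := AdjoinRoot (hyperPoly f)

section

variable {f : k[X]} [hirr : Fact (Irreducible (hyperPoly f))]

instance : Module.Finite (RatFunc k) (HyperField f) :=
  (hyperPoly_monic f).finite_adjoinRoot

instance : IsFunctionField k (HyperField f) where
  essFiniteType := by
    have h1 : Algebra.EssFiniteType k[X] (RatFunc k) :=
      Algebra.EssFiniteType.of_isLocalization _ (nonZeroDivisors k[X])
    have h2 : Algebra.EssFiniteType k (RatFunc k) :=
      Algebra.EssFiniteType.comp k k[X] (RatFunc k)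
    have h3 : Algebra.EssFiniteType (RatFunc k) (HyperField f) := inferInstance
    exact Algebra.EssFiniteType.comp k (RatFunc k) (HyperField f)
  trdeg_eq_one := by
    have h2 : Algebra.IsAlgebraic k[X] (HyperField f) := by
      rw [IsFractionRing.comap_isAlgebraic_iff (A := k[X]) (K := RatFunc k)]
      infer_instance
    have hinj : FaithfulSMul k[X] (HyperField f) := by
      rw [faithfulSMul_iff_algebraMap_injective, IsScalarTower.algebraMap_eq k[X] (RatFunc k)]
      exact (algebraMap (RatFunc k) (HyperField f)).injective.comp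
        (IsFractionRing.injective k[X] (RatFunc k))
    have h1 := trdeg_add_eq k k[X] (A := HyperField f)
    rw [← h1, Polynomial.trdeg_of_isDomain, trdeg_eq_zero]
    simp

lemma root_sq (f : k[X]) [Fact (Irreducible (hyperPoly f))] :
    (AdjoinRoot.root (hyperPoly f)) ^ 2 =
      algebraMap (RatFunc k) (HyperField f) (algebraMap k[X] (RatFunc k) f) := by
  have h := AdjoinRoot.eval₂_root (hyperPoly f)
  unfold hyperPoly at h ⊢
  rw [eval₂_sub, eval₂_pow, eval₂_X, eval₂_C, sub_eq_zero] at h
  exact h

/-- The involution `y ↦ -y`. -/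
noncomputable def hyperInvol (f : k[X]) [Fact (Irreducible (hyperPoly f))] :
    HyperField f →ₐ[k] HyperField f :=
  AdjoinRoot.liftAlgHom (hyperPoly f) (IsScalarTower.toAlgHom k (RatFunc k) (HyperField f))
    (-AdjoinRoot.root (hyperPoly f)) (by
      have h := root_sq f
      change (X ^ 2 - C (algebraMap k[X] (RatFunc k) f) : (RatFunc k)[X]).eval₂ _ _ = 0
      rw [eval₂_sub, eval₂_pow, eval₂_X, eval₂_C, neg_pow_two, h]
      exact sub_self _)

lemma hyperInvol_algebraMap (r : RatFunc k) :
    hyperInvol f (algebraMap (RatFunc k) (HyperField f) r) =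
      algebraMap (RatFunc k) (HyperField f) r :=
  AdjoinRoot.liftAlgHom_of _ _ _ _ r

lemma hyperInvol_root : hyperInvol f (AdjoinRoot.root (hyperPoly f)) =
    -AdjoinRoot.root (hyperPoly f) := by
  unfold hyperInvol
  simp

lemma aeval_hyperX (p : k[X]) :
    aeval (algebraMap (RatFunc k) (HyperField f) RatFunc.X) p =
      algebraMap (RatFunc k) (HyperField f) (algebraMap k[X] (RatFunc k) p) := by
  rw [← RatFunc.algebraMap_X, ← IsScalarTower.algebraMap_apply k[X] (RatFunc k) (HyperField f),
    ← IsScalarTower.algebraMap_apply k[X] (RatFunc k) (HyperField f), aeval_algebraMap_apply,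
    aeval_X_left_apply]

lemma algebraMap_mem_adjoin (r : RatFunc k) :
    algebraMap (RatFunc k) (HyperField f) r ∈
      IntermediateField.adjoin k {algebraMap (RatFunc k) (HyperField f) RatFunc.X} := by
  rw [IntermediateField.mem_adjoin_simple_iff]
  refine ⟨r.num, r.denom, ?_⟩
  rw [aeval_hyperX, aeval_hyperX, ← map_div₀, RatFunc.num_div_denom]

/-- The hyperelliptic data. -/
noncomputable def hyperData : HyperData k (HyperField f) f where
  x := algebraMap (RatFunc k) (HyperField f) RatFunc.X
  y := AdjoinRoot.root (hyperPoly f)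
  σ := hyperInvol f
  hx := by
    rw [transcendental_iff]
    intro p hp
    rw [aeval_hyperX] at hp
    simpa using hp
  hy := by rw [aeval_hyperX, root_sq]
  hσx := hyperInvol_algebraMap _
  hσy := hyperInvol_root
  hspan := by
    intro h
    obtain ⟨p, rfl⟩ := AdjoinRoot.mk_surjective h
    have hmod : AdjoinRoot.mk (hyperPoly f) p =
        AdjoinRoot.mk (hyperPoly f) (p %ₘ hyperPoly f) := by
      rw [AdjoinRoot.mk_eq_mk]
      refine ⟨p /ₘ hyperPoly f, ?_⟩
      have := modByMonic_add_div p (hyperPoly f)
      linear_combination -this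
    have hdeg : (p %ₘ hyperPoly f).natDegree ≤ 1 := by
      have := natDegree_modByMonic_lt p (hyperPoly_monic f) (by
        intro h1
        have := hyperPoly_natDegree f
        rw [h1] at this
        simp at this)
      rw [hyperPoly_natDegree] at this
      omega
    obtain ⟨a, b, hab⟩ := exists_eq_X_add_C_of_natDegree_le_one hdeg
    refine ⟨_, algebraMap_mem_adjoin b, _, algebraMap_mem_adjoin a, ?_⟩
    rw [hmod, hab, map_add, map_mul, AdjoinRoot.mk_C, AdjoinRoot.mk_C, AdjoinRoot.mk_X]
    rw [add_comm]
    rfl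

end

/-- The squarefree polynomial `∏_{i < n} (X - i)`. -/
noncomputable def prodPoly (n : ℕ) : ℂ[X] := ∏ i ∈ Finset.range n, (X - C (i : ℂ))

lemma prodPoly_natDegree (n : ℕ) : (prodPoly n).natDegree = n := by
  unfold prodPoly
  rw [natDegree_prod_of_monic _ _ fun i _ => monic_X_sub_C _]
  simp only [natDegree_X_sub_C, Finset.sum_const, Finset.card_range, smul_eq_mul, mul_one]

lemma prodPoly_squarefree (n : ℕ) : Squarefree (prodPoly n) := by
  have : (prodPoly n).Separable := by
    unfold prodPoly
    rw [separable_prod_X_sub_C_iff']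
    intro a _ b _ hab
    exact_mod_cast hab
  exact this.squarefree

/-- For every `g` there is a curve of genus `g` with a `g^r_d` for all `0 ≤ r`, `2 r ≤ d`. -/
theorem exists_curve (g : ℕ) : ∃ C : Curve, HasGenus ℂ C.K g ∧
    ∀ r d : ℤ, 0 ≤ r → 2 * r ≤ d → HasLinearSeries ℂ C.K r d := by
  have hdeg := prodPoly_natDegree (2 * g + 1)
  have : Fact (Irreducible (hyperPoly (prodPoly (2 * g + 1)))) := ⟨hyperPoly_irreducible hdeg⟩
  refine ⟨⟨HyperField (prodPoly (2 * g + 1))⟩, ?_, ?_⟩
  · exact (hyperData (f := prodPoly (2 * g + 1))).hasGenus hdeg (prodPoly_squarefree _)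
  · intro r d hr hd
    exact (hyperData (f := prodPoly (2 * g + 1))).hasLinearSeries hdeg hr hd

end Pool.Agent.H29
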