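import Pool.Agent.H29.Principal

/-! # Hyperelliptic function fields: the genus -/

namespace Pool.Agent.H29

open Polynomial

variable {k F : Type*} [Field k] [Field F] [Algebra k F]

/-! ### Orders of polynomials in `x` -/

lemma aeval_ne_zero_of_transcendental {x : F} (hx : Transcendental k x) {p : k[X]} (hp : p ≠ 0) :
    aeval x p ≠ 0 := fun h => hp (transcendental_iff.1 hx p h)

namespace Place

variable (P : Place k F)

/-- At a pole of `x`, `ord_P p(x) = deg(p) ord_P(x)`. -/
lemma ord_aeval_of_neg {x : F} (hP : P.ord x < 0) :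
    ∀ (n : ℕ) (p : k[X]), p ≠ 0 → p.natDegree ≤ n →
      P.ord (aeval x p) = p.natDegree * P.ord x := by
  have hx0 : x ≠ 0 := ne_zero_of_ord_neg hP
  intro n
  induction n with
  | zero =>
    intro p hp hn
    have hn' : p.natDegree = 0 := Nat.le_zero.1 hn
    rw [hn', eq_C_of_natDegree_eq_zero hn', aeval_C, P.ord_algebraMap]
    simp
  | succ n ih =>
    intro p hp hn
    have hlead : aeval x (C p.leadingCoeff * X ^ p.natDegree) ≠ 0 := by
      rw [map_mul, map_pow, aeval_C, aeval_X]
      exact mul_ne_zero (by simpa using hp) (pow_ne_zero _ hx0)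
    have hlead2 : P.ord (aeval x (C p.leadingCoeff * X ^ p.natDegree)) =
        p.natDegree * P.ord x := by
      rw [map_mul, map_pow, aeval_C, aeval_X, P.ord_mul _ _ (by simpa using hp)
        (pow_ne_zero _ hx0), P.ord_algebraMap, P.ord_pow, zero_add]
    have e : aeval x p = aeval x (C p.leadingCoeff * X ^ p.natDegree) + aeval x p.eraseLead := by
      rw [← map_add, add_comm, eraseLead_add_C_mul_X_pow]
    have hge : P.ge (aeval x p.eraseLead)
        (P.ord (aeval x (C p.leadingCoeff * X ^ p.natDegree)) + 1) := by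
      by_cases h0 : p.eraseLead = 0
      · left; rw [h0, map_zero]
      · right
        have h1 : p.eraseLead.natDegree < p.natDegree := eraseLead_natDegree_lt_or_eraseLead_eq_zero p |>.resolve_right h0
        rw [ih p.eraseLead h0 (by omega), hlead2]
        have h2 : (p.eraseLead.natDegree : ℤ) + 1 ≤ p.natDegree := by exact_mod_cast h1
        nlinarith
    rw [e, ord_add_eq hlead hge, hlead2]

/-- At a zero of `x - c`, a polynomial not vanishing at `c` is a unit. -/
lemma ord_aeval_of_eval_ne_zero {x : F} {c : k} (hP : P.ge (x - algebraMap k F c) 1) {p : k[X]}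
    (hp : p.eval c ≠ 0) : aeval x p ≠ 0 ∧ P.ord (aeval x p) = 0 := by
  obtain ⟨q, hq⟩ : X - C c ∣ p - C (p.eval c) := by
    rw [dvd_iff_isRoot]; simp
  have e : aeval x p = algebraMap k F (p.eval c) + (x - algebraMap k F c) * aeval x q := by
    have : p = C (p.eval c) + (X - C c) * q := by rw [← hq]; ring
    conv_lhs => rw [this]
    simp
  have hne : algebraMap k F (p.eval c) ≠ 0 := by simpa using hp
  have hx0 : P.ge x 0 := by
    have := (hP.mono (by norm_num : (0 : ℤ) ≤ 1)).add (P.ge_algebraMap c)
    rwa [sub_add_cancel] at this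
  have hge : P.ge ((x - algebraMap k F c) * aeval x q)
      (P.ord (algebraMap k F (p.eval c)) + 1) := by
    rw [P.ord_algebraMap]
    exact (hP.mul (P.ge_aeval hx0 q)).mono (by norm_num)
  rw [e]
  exact ⟨add_ne_zero_of_ge hne hge, by rw [ord_add_eq hne hge, P.ord_algebraMap]⟩

/-- The place obtained by composing with an involution. -/
def comp (σ : F →ₐ[k] F) (hσ : ∀ h, σ (σ h) = h) : Place k F where
  ord h := P.ord (σ h)
  ord_zero := by rw [map_zero, P.ord_zero]
  ord_mul f g hf hg := by
    rw [map_mul]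
    exact P.ord_mul _ _ ((map_ne_zero σ).2 hf) ((map_ne_zero σ).2 hg)
  min_le_ord_add f g hf hg hfg := by
    rw [map_add]
    exact P.min_le_ord_add _ _ ((map_ne_zero σ).2 hf) ((map_ne_zero σ).2 hg)
      (by rw [← map_add]; exact (map_ne_zero σ).2 hfg)
  ord_algebraMap c := by rw [σ.commutes, P.ord_algebraMap]
  exists_ord_eq_one := by
    obtain ⟨t, ht⟩ := P.exists_ord_eq_one
    exact ⟨σ t, by rw [hσ, ht]⟩

lemma comp_ord (σ : F →ₐ[k] F) (hσ : ∀ h, σ (σ h) = h) (h : F) :
    (P.comp σ hσ).ord h = P.ord (σ h) := rfl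

end Place

section

variable [IsAlgClosed k] [CharZero k] [IsFunctionField k F]

/-- `x - c` has a zero. -/
lemma exists_zero_sub {x : F} (hx : Transcendental k x) (c : k) :
    ∃ P : Place k F, P.ge (x - algebraMap k F c) 1 ∧ P.ge x 0 := by
  have h1 : Transcendental k (x - algebraMap k F c) := by
    intro h
    apply hx
    have := h.add (isAlgebraic_algebraMap (R := k) (A := F) c)
    rwa [sub_add_cancel] at this
  obtain ⟨P, hP⟩ := exists_place_pos h1
  have h2 : P.ge (x - algebraMap k F c) 1 := Or.inr (by omega)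
  refine ⟨P, h2, ?_⟩
  have := (h2.mono (by norm_num : (0 : ℤ) ≤ 1)).add (P.ge_algebraMap c)
  rwa [sub_add_cancel] at this

/-- A rational function in `x` without poles outside the poles of `x` is a polynomial. -/
lemma exists_aeval_of_mem {x : F} (hx : Transcendental k x) {a : F} (m : ℕ)
    (ha : a ∈ (m • poles (k := k) x).L) : ∀ (n : ℕ) (p q : k[X]), q ≠ 0 → q.natDegree ≤ n →
      a = aeval x p / aeval x q → ∃ p' : k[X], a = aeval x p' := by
  intro n
  induction n with
  | zero =>
    intro p q hq hn hpq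
    have hqc : q = C (q.coeff 0) := eq_C_of_natDegree_eq_zero (Nat.le_zero.1 hn)
    have hc : q.coeff 0 ≠ 0 := by
      intro h0
      rw [h0, C_0] at hqc
      exact hq hqc
    refine ⟨C (q.coeff 0)⁻¹ * p, ?_⟩
    rw [hpq, hqc, map_mul, aeval_C, aeval_C, coeff_C_zero, map_inv₀]
    field_simp
  | succ n ih =>
    intro p q hq hn hpq
    by_cases hdeg : q.natDegree = 0
    · exact ih p q hq (by omega) hpq
    have hd : q.degree ≠ 0 := by
      intro h0
      exact hdeg (natDegree_eq_of_degree_eq_some h0)
    obtain ⟨c, hc⟩ := IsAlgClosed.exists_root q hd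
    obtain ⟨P, hP1, hP0⟩ := exists_zero_sub (F := F) hx c
    obtain ⟨q', hq'⟩ := dvd_iff_isRoot.2 hc
    have hq'0 : q' ≠ 0 := by
      rintro rfl
      exact hq (by rw [hq', mul_zero])
    have hqdeg : q.natDegree = 1 + q'.natDegree := by
      rw [hq', natDegree_mul (X_sub_C_ne_zero c) hq'0, natDegree_X_sub_C]
    have hqx : aeval x q ≠ 0 := aeval_ne_zero_of_transcendental hx hq
    have hapole : P.ge a 0 := by
      have h1 := ha P
      have h2 : (m • poles (k := k) x) P = 0 := by
        rw [Finsupp.smul_apply, poles_apply]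
        rcases hP0 with h | h
        · rw [h, P.ord_zero]; simp
        · rw [max_eq_right (by omega)]; simp
      rwa [h2, neg_zero] at h1
    have hroot : p.eval c = 0 := by
      by_contra hne
      obtain ⟨h1, h2⟩ := P.ord_aeval_of_eval_ne_zero hP1 hne
      have h3 : aeval x p = a * aeval x q := by
        rw [hpq]; field_simp
      have h4 : P.ge (aeval x q) 1 := by
        rw [hq', map_mul, map_sub, aeval_X, aeval_C]
        exact (hP1.mul (P.ge_aeval hP0 q')).mono (by norm_num)
      have h5 := hapole.mul h4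
      rw [← h3] at h5
      have := h5.le h1
      omega
    obtain ⟨p', hp'⟩ := dvd_iff_isRoot.2 hroot
    refine ih p' q' hq'0 (by omega) ?_
    have hxc : x - algebraMap k F c ≠ 0 := by
      intro h
      apply hqx
      rw [hq', map_mul, map_sub, aeval_X, aeval_C, h, zero_mul]
    have hq'x : aeval x q' ≠ 0 := aeval_ne_zero_of_transcendental hx hq'0
    rw [hpq, hp', hq', map_mul, map_mul, map_sub, aeval_X, aeval_C]
    field_simp

end

/-- The data of a hyperelliptic function field `y² = f(x)`. -/
structure HyperData (k F : Type*) [Field k] [Field F] [Algebra k F] (f : k[X]) where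
  /-- the coordinate `x` -/
  x : F
  /-- the coordinate `y` -/
  y : F
  /-- the hyperelliptic involution -/
  σ : F →ₐ[k] F
  hx : Transcendental k x
  hy : y ^ 2 = aeval x f
  hσx : σ x = x
  hσy : σ y = -y
  hspan : ∀ h : F, ∃ a ∈ IntermediateField.adjoin k {x}, ∃ b ∈ IntermediateField.adjoin k {x},
    h = a + b * y

namespace HyperData

variable {f : k[X]} (H : HyperData k F f)

include H

lemma sigma_fix {a : F} (ha : a ∈ IntermediateField.adjoin k {H.x}) : H.σ a = a := by
  obtain ⟨p, q, rfl⟩ := (IntermediateField.mem_adjoin_simple_iff k a).1 ha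
  rw [map_div₀, ← Polynomial.aeval_algHom_apply, ← Polynomial.aeval_algHom_apply, H.hσx]

lemma sigma_sigma (h : F) : H.σ (H.σ h) = h := by
  obtain ⟨a, ha, b, hb, rfl⟩ := H.hspan h
  rw [map_add, map_mul, H.sigma_fix ha, H.sigma_fix hb, H.hσy, map_add, map_mul, map_neg,
    H.sigma_fix ha, H.sigma_fix hb, H.hσy, neg_neg]

lemma y_ne_zero (hf : f ≠ 0) : H.y ≠ 0 := by
  intro h
  have := H.hy
  rw [h] at this
  exact aeval_ne_zero_of_transcendental H.hx hf (by rw [← this]; ring)

lemma y_notMem [CharZero k] (hf : f ≠ 0) : H.y ∉ IntermediateField.adjoin k {H.x} := by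
  intro h
  have h1 := H.sigma_fix h
  rw [H.hσy] at h1
  have : CharZero F := charZero_of_injective_algebraMap (algebraMap k F).injective
  have h2 : H.y = 0 := by
    have h3 : (2 : F) * H.y = 0 := by linear_combination -h1
    exact (mul_eq_zero.1 h3).resolve_left two_ne_zero
  exact H.y_ne_zero hf h2

lemma linearIndependent [CharZero k] (hf : f ≠ 0) :
    LinearIndependent (IntermediateField.adjoin k {H.x}) ![(1 : F), H.y] := by
  rw [LinearIndependent.pair_iff]
  intro s t hst
  rw [Algebra.smul_def, Algebra.smul_def, mul_one] at hst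
  have ht : t = 0 := by
    by_contra ht
    apply H.y_notMem hf
    have ht' : algebraMap (IntermediateField.adjoin k {H.x}) F t ≠ 0 := by simpa using ht
    have e : H.y = -(s : F) / (t : F) := by
      have h1 : (s : F) + (t : F) * H.y = 0 := hst
      have h2 : (t : F) ≠ 0 := ht'
      field_simp
      linear_combination h1
    rw [e]
    exact div_mem (neg_mem s.2) t.2
  refine ⟨?_, ht⟩
  rw [ht, map_zero, zero_mul, add_zero] at hst
  simpa using hst

variable [IsAlgClosed k] [CharZero k] [IsFunctionField k F]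

omit [IsAlgClosed k] [CharZero k] in
lemma finrank_le_two : Module.finrank (IntermediateField.adjoin k {H.x}) F ≤ 2 := by
  classical
  have hfd := finiteDimensional_adjoin_of_transcendental H.hx
  have hspan : Submodule.span (IntermediateField.adjoin k {H.x}) ({1, H.y} : Set F) = ⊤ := by
    rw [Submodule.eq_top_iff']
    intro h
    obtain ⟨a, ha, b, hb, rfl⟩ := H.hspan h
    rw [Submodule.mem_span_pair]
    exact ⟨⟨a, ha⟩, ⟨b, hb⟩, by rw [Algebra.smul_def, Algebra.smul_def, mul_one]; rfl⟩
  have h1 := finrank_span_le_card (R := IntermediateField.adjoin k {H.x}) ({1, H.y} : Set F)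
  rw [hspan, finrank_top] at h1
  refine h1.trans ?_
  rw [Set.toFinset_insert, Set.toFinset_singleton]
  exact Finset.card_le_two

/-- The unique pole of `x`. -/
lemma exists_pole {g : ℕ} (hdeg : f.natDegree = 2 * g + 1) :
    ∃ P : Place k F, poles (k := k) H.x = Finsupp.single P 2 ∧ P.ord H.x = -2 ∧
      P.ord H.y = -(2 * g + 1) := by
  classical
  have hf : f ≠ 0 := by
    rintro rfl
    simp at hdeg
  obtain ⟨P, hP⟩ := exists_place_pos (transcendental_inv H.hx)
  rw [P.ord_inv] at hP
  have h1 : 2 * P.ord H.y = (2 * g + 1) * P.ord H.x := by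
    have := P.ord_pow H.y 2
    rw [H.hy, P.ord_aeval_of_neg (by omega) _ f hf le_rfl, hdeg] at this
    push_cast at this
    linarith
  have h2 : P.ord H.x ≤ -2 := by
    by_contra h
    have h3 : P.ord H.x = -1 := by omega
    rw [h3] at h1
    omega
  have hdeg2 : (poles (k := k) H.x).degree ≤ 2 := by
    rw [degree_poles H.hx]
    exact_mod_cast H.finrank_le_two
  have hPB : 2 ≤ poles (k := k) H.x P := by
    rw [poles_apply]
    omega
  have hle : Finsupp.single P 2 ≤ poles (k := k) H.x := by
    intro Q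
    rw [Finsupp.single_apply]
    split_ifs with h
    · subst h; exact hPB
    · exact poles_nonneg _ Q
  have heq : poles (k := k) H.x = Finsupp.single P 2 := by
    have h3 : 0 ≤ poles (k := k) H.x - Finsupp.single P 2 := sub_nonneg.2 hle
    have h4 : (poles (k := k) H.x - Finsupp.single P 2).degree = 0 := by
      have h5 := Divisor.degree_nonneg h3
      rw [Divisor.degree_sub, Divisor.degree_single] at h5 ⊢
      omega
    exact sub_eq_zero.1 (Divisor.eq_zero_of_degree_eq_zero h3 h4)
  have h6 : P.ord H.x = -2 := by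
    have h7 : poles (k := k) H.x P = 2 := by rw [heq, Finsupp.single_apply, if_pos rfl]
    rw [poles_apply] at h7
    omega
  refine ⟨P, heq, h6, ?_⟩
  rw [h6] at h1
  omega

/-- Lower bound: `ℓ(m (x)_∞) ≥ 2 m + 1 - g`. -/
lemma le_ell {g : ℕ} (hdeg : f.natDegree = 2 * g + 1) (m : ℕ) :
    2 * (m : ℤ) + 1 - g ≤ (m • poles (k := k) H.x).ell := by
  classical
  have hf : f ≠ 0 := by
    rintro rfl
    simp at hdeg
  obtain ⟨P, hP, hPx, hPy⟩ := H.exists_pole hdeg
  have hy_ge : ∀ Q : Place k F, Q ≠ P → Q.ge H.x 0 ∧ Q.ge H.y 0 := by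
    intro Q hQ
    have h1 : poles (k := k) H.x Q = 0 := by
      rw [hP, Finsupp.single_apply, if_neg hQ.symm]
    rw [poles_apply] at h1
    have h2 : 0 ≤ Q.ord H.x := by omega
    have h3 : Q.ge H.x 0 := Or.inr h2
    refine ⟨h3, Or.inr ?_⟩
    have h4 := (Q.ge_aeval h3 f).le (aeval_ne_zero_of_transcendental H.hx hf)
    rw [← H.hy, Q.ord_pow] at h4
    push_cast at h4
    omega
  have hmemx : ∀ i : ℕ, i ≤ m → H.x ^ i ∈ (m • poles (k := k) H.x).L := by
    intro i hi Q
    by_cases hQ : Q = P
    · subst hQ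
      right
      rw [Q.ord_pow, hPx, hP, Finsupp.smul_apply, Finsupp.single_apply, if_pos rfl,
        nsmul_eq_mul]
      have : (i : ℤ) ≤ m := by exact_mod_cast hi
      push_cast
      linarith
    · have h1 := (hy_ge Q hQ).1.pow i
      refine h1.mono ?_
      rw [hP, Finsupp.smul_apply, Finsupp.single_apply, if_neg (Ne.symm hQ)]
      simp
  have hmemy : ∀ j : ℕ, j + g + 1 ≤ m → H.x ^ j * H.y ∈ (m • poles (k := k) H.x).L := by
    intro j hj Q
    by_cases hQ : Q = P
    · subst hQ
      right
      have hx0 : H.x ≠ 0 := Place.ne_zero_of_ord_neg (P := Q) (by omega)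
      rw [Q.ord_mul _ _ (pow_ne_zero _ hx0) (H.y_ne_zero hf), Q.ord_pow, hPx, hPy, hP,
        Finsupp.smul_apply, Finsupp.single_apply, if_pos rfl, nsmul_eq_mul]
      have : (j : ℤ) + g + 1 ≤ m := by exact_mod_cast hj
      push_cast
      linarith
    · have h1 := ((hy_ge Q hQ).1.pow j).mul (hy_ge Q hQ).2
      refine h1.mono ?_
      rw [hP, Finsupp.smul_apply, Finsupp.single_apply, if_neg (Ne.symm hQ)]
      simp
  -- the family
  have hlin := linearIndependent_pow_mul H.hx (H.linearIndependent hf) (m + 1)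
  let e : Fin (m + 1) ⊕ Fin (m - g) → Fin (m + 1) × Fin 2 := fun s => match s with
    | Sum.inl i => (i, 0)
    | Sum.inr j => (⟨j, by omega⟩, 1)
  have he : Function.Injective e := by
    rintro (a | a) (b | b) hab
    · simp only [e, Prod.mk.injEq, and_true] at hab
      rw [hab]
    · simp [e] at hab
    · simp [e] at hab
    · simp only [e, Prod.mk.injEq, and_true, Fin.mk.injEq] at hab
      exact congrArg Sum.inr (Fin.ext hab)
  have hlin2 := hlin.comp e he
  have hmem : ∀ s, ((fun p : Fin (m + 1) × Fin 2 => H.x ^ (p.1 : ℕ) * (![(1 : F), H.y] p.2)) ∘ e) s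
      ∈ (m • poles (k := k) H.x).L := by
    rintro (i | j)
    · simp only [Function.comp_apply, e, Matrix.cons_val_zero, mul_one]
      exact hmemx i (by omega)
    · simp only [Function.comp_apply, e, Matrix.cons_val_one, Matrix.cons_val_zero]
      exact hmemy j (by omega)
  have hlin3 : LinearIndependent k (fun s => (⟨_, hmem s⟩ : (m • poles (k := k) H.x).L)) :=
    LinearIndependent.of_comp (m • poles (k := k) H.x).L.subtype hlin2
  have hcard := hlin3.fintype_card_le_finrank
  rw [Fintype.card_sum, Fintype.card_fin, Fintype.card_fin] at hcard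
  unfold Divisor.ell
  omega

/-- `σ` preserves `L(m (x)_∞)`. -/
lemma sigma_mem {m : ℕ} {h : F} (hh : h ∈ (m • poles (k := k) H.x).L) :
    H.σ h ∈ (m • poles (k := k) H.x).L := by
  intro P
  have h1 := hh (P.comp H.σ H.sigma_sigma)
  have h2 : poles (k := k) H.x (P.comp H.σ H.sigma_sigma) = poles (k := k) H.x P := by
    rw [poles_apply, poles_apply, Place.comp_ord, H.hσx]
  rw [Finsupp.smul_apply, h2] at h1
  rw [Finsupp.smul_apply]
  rcases h1 with h1 | h1
  · left; rw [h1, map_zero]
  · right; exact h1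

/-- Every element of `L(m (x)_∞)` is `A(x) + B(x) y` with polynomials `A` and `B`. -/
lemma exists_of_mem (hsq : Squarefree f) {m : ℕ} {h : F} (hh : h ∈ (m • poles (k := k) H.x).L) :
    ∃ A B : k[X], h = aeval H.x A + aeval H.x B * H.y := by
  have hf : f ≠ 0 := hsq.ne_zero
  have hcz : CharZero F := charZero_of_injective_algebraMap (algebraMap k F).injective
  obtain ⟨a, ha, b, hb, hab⟩ := H.hspan h
  have hσh : H.σ h = a - b * H.y := by
    rw [hab, map_add, map_mul, H.sigma_fix ha, H.sigma_fix hb, H.hσy]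
    ring
  have h1 := H.sigma_mem hh
  have haL : a ∈ (m • poles (k := k) H.x).L := by
    have h2 := Submodule.smul_mem _ (2⁻¹ : k) (Submodule.add_mem _ hh h1)
    have e : (2⁻¹ : k) • (h + H.σ h) = a := by
      rw [hσh, hab, Algebra.smul_def, map_inv₀, map_ofNat]
      field_simp
      ring
    rwa [e] at h2
  have hbL : b * H.y ∈ (m • poles (k := k) H.x).L := by
    have h2 := Submodule.sub_mem _ hh haL
    rwa [hab, add_sub_cancel_left] at h2
  -- `a` is a polynomial
  obtain ⟨p, q, hpq⟩ := (IntermediateField.mem_adjoin_simple_iff k a).1 ha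
  obtain ⟨A, hA⟩ : ∃ A : k[X], a = aeval H.x A := by
    by_cases hq : q = 0
    · exact ⟨0, by rw [hpq, hq]; simp⟩
    · exact exists_aeval_of_mem H.hx m haL q.natDegree p q hq le_rfl hpq
  -- `b² f` is a polynomial
  obtain ⟨p, q, hpq⟩ := (IntermediateField.mem_adjoin_simple_iff k b).1 hb
  obtain ⟨B, hB⟩ : ∃ B : k[X], b = aeval H.x B := by
    by_cases hq : q = 0
    · exact ⟨0, by rw [hpq, hq]; simp⟩
    have hcL : (b * H.y) * (b * H.y) ∈ ((2 * m) • poles (k := k) H.x).L := by
      have := Divisor.mul_mem_L hbL hbL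
      rwa [← two_nsmul, smul_smul] at this
    have hc : (b * H.y) * (b * H.y) = aeval H.x (p ^ 2 * f) / aeval H.x (q ^ 2) := by
      rw [map_mul, map_pow, map_pow, ← H.hy, hpq]
      ring
    obtain ⟨Cp, hCp⟩ := exists_aeval_of_mem H.hx (2 * m) hcL (q ^ 2).natDegree (p ^ 2 * f) (q ^ 2)
      (pow_ne_zero 2 hq) le_rfl hc
    have hpoly : p ^ 2 * f = q ^ 2 * Cp := by
      have hq2 : aeval H.x (q ^ 2) ≠ 0 := aeval_ne_zero_of_transcendental H.hx (pow_ne_zero 2 hq)
      have h3 : aeval H.x (p ^ 2 * f) = aeval H.x (q ^ 2 * Cp) := by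
        rw [map_mul (aeval H.x) (q ^ 2) Cp, ← hCp, hc]
        field_simp
      exact transcendental_iff_injective.1 H.hx h3
    -- `q ∣ p`
    have hdvd : ∀ (n : ℕ) (p q : k[X]), q ≠ 0 → q.natDegree ≤ n → p ^ 2 * f = q ^ 2 * Cp →
        q ∣ p := by
      intro n
      induction n with
      | zero =>
        intro p q hq hn _
        have hu : IsUnit q := by
          rw [isUnit_iff_degree_eq_zero, degree_eq_natDegree hq, Nat.le_zero.1 hn]
          rfl
        exact hu.dvd
      | succ n ih =>
        intro p q hq hn hpq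
        by_cases hdeg : q.natDegree = 0
        · exact ih p q hq (by omega) hpq
        have hd : q.degree ≠ 0 := by
          intro h0
          exact hdeg (natDegree_eq_of_degree_eq_some h0)
        obtain ⟨c, hc⟩ := IsAlgClosed.exists_root q hd
        obtain ⟨q', hq'⟩ := dvd_iff_isRoot.2 hc
        have hq'0 : q' ≠ 0 := by
          rintro rfl
          exact hq (by rw [hq', mul_zero])
        have hqdeg : q.natDegree = 1 + q'.natDegree := by
          rw [hq', natDegree_mul (X_sub_C_ne_zero c) hq'0, natDegree_X_sub_C]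
        have hpc : X - C c ∣ p := by
          by_contra hnd
          have hprime : Prime (X - C c) := prime_X_sub_C c
          have h1 : (X - C c) * (X - C c) ∣ p ^ 2 * f := by
            rw [hpq, hq']
            exact ⟨q' ^ 2 * Cp, by ring⟩
          obtain ⟨w, hw⟩ := (dvd_mul_right (X - C c) (X - C c)).trans h1
          have h2 : X - C c ∣ f := by
            rcases hprime.dvd_or_dvd ((dvd_mul_right (X - C c) (X - C c)).trans h1) with h | h
            · exact absurd (hprime.dvd_of_dvd_pow h) hnd
            · exact h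
          obtain ⟨f', hf'⟩ := h2
          have h3 : X - C c ∣ p ^ 2 * f' := by
            obtain ⟨u, hu⟩ := h1
            refine ⟨u, ?_⟩
            have h4 : (X - C c) * (p ^ 2 * f') = (X - C c) * ((X - C c) * u) := by
              rw [← mul_assoc (X - C c) (X - C c) u, ← hu, hf']; ring
            exact mul_left_cancel₀ (X_sub_C_ne_zero c) h4
          rcases hprime.dvd_or_dvd h3 with h | h
          · exact hnd (hprime.dvd_of_dvd_pow h)
          · obtain ⟨f'', hf''⟩ := h
            have := hsq (X - C c) ⟨f'', by rw [hf', hf'']; ring⟩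
            exact hprime.not_isUnit this
        obtain ⟨p', hp'⟩ := hpc
        have h1 : p' ^ 2 * f = q' ^ 2 * Cp := by
          have h2 : (X - C c) ^ 2 * (p' ^ 2 * f) = (X - C c) ^ 2 * (q' ^ 2 * Cp) := by
            have := hpq
            rw [hp', hq'] at this
            linear_combination this
          exact mul_left_cancel₀ (pow_ne_zero 2 (X_sub_C_ne_zero c)) h2
        have h2 := ih p' q' hq'0 (by omega) h1
        rw [hp', hq']
        exact mul_dvd_mul_left _ h2
    obtain ⟨B, hB⟩ := hdvd q.natDegree p q hq le_rfl hpoly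
    refine ⟨B, ?_⟩
    have hqx : aeval H.x q ≠ 0 := aeval_ne_zero_of_transcendental H.hx hq
    rw [hpq, hB, map_mul]
    field_simp
  exact ⟨A, B, by rw [hab, hA, hB]⟩

/-- Degrees of the two components of an element of `L(m (x)_∞)`. -/
lemma degree_le_of_mem {g : ℕ} (hdeg : f.natDegree = 2 * g + 1) {m : ℕ} {A B : k[X]}
    (hh : aeval H.x A + aeval H.x B * H.y ∈ (m • poles (k := k) H.x).L) :
    (A ≠ 0 → A.natDegree ≤ m) ∧ (B ≠ 0 → B.natDegree + g + 1 ≤ m) := by
  classical
  have hf : f ≠ 0 := by
    rintro rfl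
    simp at hdeg
  obtain ⟨P, hP, hPx, hPy⟩ := H.exists_pole hdeg
  have hge := hh P
  rw [hP, Finsupp.smul_apply, Finsupp.single_apply, if_pos rfl, nsmul_eq_mul] at hge
  have hy0 := H.y_ne_zero hf
  have ordA : A ≠ 0 → P.ord (aeval H.x A) = -2 * A.natDegree := by
    intro hA
    rw [P.ord_aeval_of_neg (by omega) _ A hA le_rfl, hPx]; ring
  have ordB : B ≠ 0 → P.ord (aeval H.x B * H.y) = -2 * B.natDegree - (2 * g + 1) := by
    intro hB
    rw [P.ord_mul _ _ (aeval_ne_zero_of_transcendental H.hx hB) hy0,
      P.ord_aeval_of_neg (by omega) _ B hB le_rfl, hPx, hPy]; ring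
  by_cases hA : A = 0
  · refine ⟨fun h => absurd hA h, fun hB => ?_⟩
    rw [hA, map_zero, zero_add] at hge
    have h1 := hge.le (mul_ne_zero (aeval_ne_zero_of_transcendental H.hx hB) hy0)
    rw [ordB hB] at h1
    omega
  by_cases hB : B = 0
  · refine ⟨fun _ => ?_, fun h => absurd hB h⟩
    rw [hB, map_zero, zero_mul, add_zero] at hge
    have h1 := hge.le (aeval_ne_zero_of_transcendental H.hx hA)
    rw [ordA hA] at h1
    omega
  have hA' := aeval_ne_zero_of_transcendental H.hx hA
  have hB' := mul_ne_zero (aeval_ne_zero_of_transcendental H.hx hB) hy0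
  have h1 := ordA hA
  have h2 := ordB hB
  rcases lt_or_ge (P.ord (aeval H.x A)) (P.ord (aeval H.x B * H.y)) with hlt | hlt
  · have h3 : P.ge (aeval H.x B * H.y) (P.ord (aeval H.x A) + 1) := Or.inr (by omega)
    have h4 := Place.add_ne_zero_of_ge hA' h3
    have h5 := hge.le h4
    rw [Place.ord_add_eq hA' h3] at h5
    exact ⟨fun _ => by omega, fun _ => by omega⟩
  · have hne : P.ord (aeval H.x A) ≠ P.ord (aeval H.x B * H.y) := by omega
    have h3 : P.ge (aeval H.x A) (P.ord (aeval H.x B * H.y) + 1) := Or.inr (by omega)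
    have h4 := Place.add_ne_zero_of_ge hB' h3
    rw [add_comm] at hge
    have h5 := hge.le h4
    rw [Place.ord_add_eq hB' h3] at h5
    exact ⟨fun _ => by omega, fun _ => by omega⟩

/-- Upper bound: `ℓ(m (x)_∞) ≤ 2 m + 1 - g` for `m ≥ g`. -/
lemma ell_le {g : ℕ} (hdeg : f.natDegree = 2 * g + 1) (hsq : Squarefree f) {m : ℕ} (hm : g ≤ m) :
    ((m • poles (k := k) H.x).ell : ℤ) ≤ 2 * m + 1 - g := by
  classical
  let b : Fin (m + 1) ⊕ Fin (m - g) → F := Sum.elim (fun i => H.x ^ (i : ℕ))
    (fun j => H.x ^ (j : ℕ) * H.y)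
  have hle : (m • poles (k := k) H.x).L ≤ Submodule.span k (Set.range b) := by
    intro h hh
    obtain ⟨A, B, hAB⟩ := H.exists_of_mem hsq hh
    rw [hAB] at hh
    obtain ⟨hA, hB⟩ := H.degree_le_of_mem hdeg hh
    rw [hAB]
    refine Submodule.add_mem _ ?_ ?_
    · by_cases hA0 : A = 0
      · rw [hA0, map_zero]; exact Submodule.zero_mem _
      rw [aeval_eq_sum_range' (Nat.lt_succ_of_le (hA hA0))]
      refine Submodule.sum_mem _ fun i hi => Submodule.smul_mem _ _ (Submodule.subset_span ?_)
      exact ⟨Sum.inl ⟨i, Finset.mem_range.1 hi⟩, rfl⟩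
    · by_cases hB0 : B = 0
      · rw [hB0, map_zero, zero_mul]; exact Submodule.zero_mem _
      have hBn : B.natDegree < m - g := by
        have := hB hB0
        omega
      rw [aeval_eq_sum_range' hBn, Finset.sum_mul]
      refine Submodule.sum_mem _ fun i hi => ?_
      rw [smul_mul_assoc]
      refine Submodule.smul_mem _ _ (Submodule.subset_span ?_)
      exact ⟨Sum.inr ⟨i, Finset.mem_range.1 hi⟩, rfl⟩
  have hfin : Module.Finite k (Submodule.span k (Set.range b)) :=
    FiniteDimensional.span_of_finite k (Set.finite_range b)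
  have h1 : (m • poles (k := k) H.x).ell ≤ Module.finrank k (Submodule.span k (Set.range b)) :=
    Submodule.finrank_mono hle
  have h2 : Module.finrank k (Submodule.span k (Set.range b)) ≤
      Fintype.card (Fin (m + 1) ⊕ Fin (m - g)) := finrank_range_le_card b
  rw [Fintype.card_sum, Fintype.card_fin, Fintype.card_fin] at h2
  omega

/-- The genus of `y² = f(x)`, `f` squarefree of degree `2 g + 1`, is `g`. -/
theorem hasGenus {g : ℕ} (hdeg : f.natDegree = 2 * g + 1) (hsq : Squarefree f) :
    HasGenus k F g := by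
  classical
  obtain ⟨P, hP, hPx, hPy⟩ := H.exists_pole hdeg
  have hdegB : (poles (k := k) H.x).degree = 2 := by
    rw [hP, Divisor.degree_single]
  constructor
  · refine ⟨g • poles (k := k) H.x, ?_⟩
    have h1 := H.ell_le hdeg hsq (le_refl g)
    have h2 := H.le_ell hdeg g
    simp only
    rw [Divisor.degree_nsmul, hdegB]
    linarith
  · rintro _ ⟨A, rfl⟩
    have h1 := degree_sub_ell_le (D := poles (k := k) H.x) (γ := (g : ℤ) - 1)
      (by rw [hdegB]; norm_num) (Filter.Eventually.of_forall fun m => by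
        have h2 := H.le_ell hdeg m
        rw [Divisor.degree_nsmul, hdegB]
        linarith) A
    simp only
    linarith

/-- Hyperelliptic curves carry a `g^r_d` for all `0 ≤ r` and `2 r ≤ d`. -/
theorem hasLinearSeries {g : ℕ} (hdeg : f.natDegree = 2 * g + 1) {r d : ℤ} (hr : 0 ≤ r)
    (hd : 2 * r ≤ d) : HasLinearSeries k F r d := by
  classical
  obtain ⟨P, hP, hPx, hPy⟩ := H.exists_pole hdeg
  obtain ⟨r', rfl⟩ : ∃ r' : ℕ, (r' : ℤ) = r := ⟨r.toNat, Int.toNat_of_nonneg hr⟩
  refine ⟨r' • poles (k := k) H.x + Finsupp.single P (d - 2 * r'), ?_, ?_⟩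
  · rw [Divisor.degree_add, Divisor.degree_nsmul, hP, Divisor.degree_single,
      Divisor.degree_single]
    ring
  · have hlin := linearIndependent_pow_of_transcendental H.hx (r' + 1)
    have hmem : ∀ i : Fin (r' + 1), H.x ^ (i : ℕ) ∈
        (r' • poles (k := k) H.x + Finsupp.single P (d - 2 * r')).L := by
      intro i
      have hle : r' • poles (k := k) H.x ≤
          r' • poles (k := k) H.x + Finsupp.single P (d - 2 * r') := by
        refine le_add_of_nonneg_right ?_
        intro Q
        rw [Finsupp.single_apply]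
        split_ifs
        · simp only [Finsupp.coe_zero, Pi.zero_apply]; omega
        · simp
      apply Divisor.L_mono hle
      intro Q
      have h1 := (Q.ge_ord H.x).pow (i : ℕ)
      refine h1.mono ?_
      rw [Finsupp.smul_apply, poles_apply, nsmul_eq_mul]
      have h2 : ((i : ℕ) : ℤ) ≤ r' := by
        have := i.2
        omega
      have h3 : -Q.ord H.x ≤ max (-Q.ord H.x) 0 := le_max_left _ _
      have h4 : 0 ≤ max (-Q.ord H.x) 0 := le_max_right _ _
      have h5 : (0 : ℤ) ≤ ((i : ℕ) : ℤ) := by positivity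
      nlinarith
    have hlin2 : LinearIndependent k (fun i : Fin (r' + 1) => (⟨_, hmem i⟩ :
        (r' • poles (k := k) H.x + Finsupp.single P (d - 2 * r')).L)) :=
      LinearIndependent.of_comp
        (r' • poles (k := k) H.x + Finsupp.single P (d - 2 * r')).L.subtype hlin
    have hcard := hlin2.fintype_card_le_finrank
    rw [Fintype.card_fin] at hcard
    unfold Divisor.ell
    exact_mod_cast hcard

end HyperData

end Pool.Agent.H29
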