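import Pool.Agent.H29.CurveDefs

namespace Pool.Agent.H29

variable {k F : Type*} [Field k] [Field F] [Algebra k F]

namespace Place

variable (P : Place k F)

@[ext] lemma ext' {P Q : Place k F} (h : P.ord = Q.ord) : P = Q := by
  cases P; cases Q; congr

lemma ord_one : P.ord 1 = 0 := by
  have := P.ord_algebraMap 1
  rwa [map_one] at this

lemma ge_iff {f : F} {n : ℤ} (hf : f ≠ 0) : P.ge f n ↔ n ≤ P.ord f := by
  simp [Place.ge, hf]

lemma ge_ord (f : F) : P.ge f (P.ord f) := Or.inr le_rfl

variable {P}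

lemma ge.mono {f : F} {m n : ℤ} (h : P.ge f n) (hmn : m ≤ n) : P.ge f m := by
  rcases h with h | h
  · exact Or.inl h
  · exact Or.inr (hmn.trans h)

lemma ge.le {f : F} {n : ℤ} (h : P.ge f n) (hf : f ≠ 0) : n ≤ P.ord f := h.resolve_left hf

lemma ge.add {f g : F} {n : ℤ} (hf : P.ge f n) (hg : P.ge g n) : P.ge (f + g) n := ge_add hf hg

lemma ge.mul {f g : F} {m n : ℤ} (hf : P.ge f m) (hg : P.ge g n) : P.ge (f * g) (m + n) := by
  rcases eq_or_ne f 0 with rfl | hf0
  · left; simp
  rcases eq_or_ne g 0 with rfl | hg0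
  · left; simp
  right
  rw [P.ord_mul f g hf0 hg0]
  exact add_le_add (hf.le hf0) (hg.le hg0)

lemma ge.smul {f : F} {n : ℤ} (hf : P.ge f n) (c : k) : P.ge (c • f) n := ge_smul c hf

variable (P)

lemma ord_neg_one : P.ord (-1) = 0 := by
  have := P.ord_algebraMap (-1)
  rwa [map_neg, map_one] at this

lemma ord_neg (f : F) : P.ord (-f) = P.ord f := by
  rcases eq_or_ne f 0 with rfl | hf0
  · simp
  rw [neg_eq_neg_one_mul, P.ord_mul _ _ (by simp) hf0, ord_neg_one, zero_add]

lemma ord_inv (f : F) : P.ord f⁻¹ = - P.ord f := by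
  rcases eq_or_ne f 0 with rfl | hf0
  · simp [P.ord_zero]
  have := P.ord_mul f f⁻¹ hf0 (inv_ne_zero hf0)
  rw [mul_inv_cancel₀ hf0, P.ord_one] at this
  linarith

lemma ord_div {f g : F} (hf : f ≠ 0) (hg : g ≠ 0) : P.ord (f / g) = P.ord f - P.ord g := by
  rw [div_eq_mul_inv, P.ord_mul _ _ hf (inv_ne_zero hg), P.ord_inv]
  ring

lemma ord_pow (f : F) (n : ℕ) : P.ord (f ^ n) = n * P.ord f := by
  rcases eq_or_ne f 0 with rfl | hf0
  · rcases Nat.eq_zero_or_pos n with rfl | hn
    · simp [P.ord_one]
    · rw [zero_pow hn.ne', P.ord_zero]; simp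
  induction n with
  | zero => simp [P.ord_one]
  | succ n ih =>
    rw [pow_succ, P.ord_mul _ _ (pow_ne_zero n hf0) hf0, ih]
    push_cast
    ring

lemma ord_zpow (f : F) (n : ℤ) : P.ord (f ^ n) = n * P.ord f := by
  rcases n with n | n
  · simpa using P.ord_pow f n
  · rw [zpow_negSucc, P.ord_inv, P.ord_pow, Int.negSucc_eq]
    push_cast
    ring

variable {P}

lemma ge.neg {f : F} {n : ℤ} (hf : P.ge f n) : P.ge (-f) n := by
  rcases hf with h | h
  · left; simpa using h
  · right; rwa [ord_neg]

lemma ge.sub {f g : F} {n : ℤ} (hf : P.ge f n) (hg : P.ge g n) : P.ge (f - g) n := by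
  rw [sub_eq_add_neg]; exact hf.add hg.neg

lemma ge.sum {ι : Type*} {s : Finset ι} {f : ι → F} {n : ℤ} (hf : ∀ i ∈ s, P.ge (f i) n) :
    P.ge (∑ i ∈ s, f i) n := by
  classical
  induction s using Finset.induction_on with
  | empty => left; simp
  | insert i s his ih =>
    rw [Finset.sum_insert his]
    exact (hf i (Finset.mem_insert_self i s)).add
      (ih fun j hj => hf j (Finset.mem_insert_of_mem hj))

lemma ge.pow {f : F} {m : ℤ} (hf : P.ge f m) (n : ℕ) : P.ge (f ^ n) (n * m) := by
  induction n with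
  | zero => right; simp [P.ord_one]
  | succ n ih =>
    rw [pow_succ]
    have := ih.mul hf
    refine this.mono (le_of_eq ?_)
    push_cast
    ring

variable (P)

lemma ge_algebraMap (c : k) : P.ge (algebraMap k F c) 0 := by
  right; rw [P.ord_algebraMap]

lemma ge_one : P.ge (1 : F) 0 := by
  right; rw [P.ord_one]

variable {P}

lemma add_ne_zero_of_ge {f g : F} (hf : f ≠ 0) (hg : P.ge g (P.ord f + 1)) : f + g ≠ 0 := by
  intro h
  have hg' : g = -f := by linear_combination h
  rcases hg with h1 | h1
  · rw [h1] at hg'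
    exact hf (by simpa using hg'.symm)
  · rw [hg', ord_neg] at h1
    omega

lemma ord_add_eq {f g : F} (hf : f ≠ 0) (hg : P.ge g (P.ord f + 1)) :
    P.ord (f + g) = P.ord f := by
  have hfg := add_ne_zero_of_ge hf hg
  apply le_antisymm
  · by_contra hlt
    push Not at hlt
    have h1 : P.ge (f + g) (P.ord f + 1) := Or.inr (by omega)
    have h2 := h1.sub hg
    rw [add_sub_cancel_right] at h2
    have := h2.le hf
    omega
  · have h1 : P.ge f (P.ord f) := P.ge_ord f
    exact (h1.add (hg.mono (by omega))).le hfg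

lemma ge.inv_mul {f g : F} {n : ℤ} (hg : P.ge g n) (hf : f ≠ 0) :
    P.ge (g / f) (n - P.ord f) := by
  rcases eq_or_ne g 0 with rfl | hg0
  · left; simp
  right
  rw [P.ord_div hg0 hf]
  have := hg.le hg0
  omega

variable (P)

lemma exists_ord_eq (n : ℤ) : ∃ t : F, t ≠ 0 ∧ P.ord t = n := by
  obtain ⟨t, ht⟩ := P.exists_ord_eq_one
  have ht0 : t ≠ 0 := by
    rintro rfl
    rw [P.ord_zero] at ht
    omega
  exact ⟨t ^ n, zpow_ne_zero n ht0, by rw [P.ord_zpow, ht, mul_one]⟩

/-- The value of a polynomial at a function without pole has no pole. -/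
lemma ge_aeval {f : F} (hf : P.ge f 0) (p : Polynomial k) : P.ge (Polynomial.aeval f p) 0 := by
  rw [Polynomial.aeval_eq_sum_range]
  refine ge.sum fun i _ => ge.smul ?_ _
  have := hf.pow i
  simpa using this

end Place

/-! ### Facts on function fields -/

section FunctionField

variable [hFF : IsFunctionField k F]

lemma isAlgebraic_adjoin_of_transcendental {y : F} (hy : Transcendental k y) :
    Algebra.IsAlgebraic (IntermediateField.adjoin k {y}) F := by
  have hai : AlgebraicIndependent k (fun _ : Unit => y) := by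
    rw [algebraicIndependent_unique_type_iff]
    exact hy
  have htb : IsTranscendenceBasis k (fun _ : Unit => y) := by
    refine hai.isTranscendenceBasis_of_lift_trdeg_le_of_finite ?_
    rw [hFF.trdeg_eq_one]
    simp
  have h := htb.isAlgebraic_field
  have hr : Set.range (fun _ : Unit => y) = {y} := by simp
  rwa [hr] at h

lemma finiteDimensional_adjoin_of_transcendental {y : F} (hy : Transcendental k y) :
    FiniteDimensional (IntermediateField.adjoin k {y}) F := by
  have := isAlgebraic_adjoin_of_transcendental hy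
  have := hFF.essFiniteType
  have : Algebra.EssFiniteType (IntermediateField.adjoin k {y}) F :=
    Algebra.EssFiniteType.of_comp k (IntermediateField.adjoin k {y}) F
  exact Algebra.finite_of_essFiniteType_of_isAlgebraic

lemma exists_transcendental : ∃ x : F, Transcendental k x := by
  have h : Algebra.trdeg k F ≠ 0 := by rw [hFF.trdeg_eq_one]; simp
  rw [trdeg_ne_zero_iff] at h
  exact h.transcendental

end FunctionField

end Pool.Agent.H29
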