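import Pool.Agent.H29.Degree

/-! # Principal divisors -/

namespace Pool.Agent.H29

open Polynomial

variable {k F : Type*} [Field k] [Field F] [Algebra k F]

lemma transcendental_inv {x : F} (hx : Transcendental k x) : Transcendental k x⁻¹ := by
  intro h
  apply hx
  rw [← inv_inv x]
  exact h.inv

section

variable [IsAlgClosed k] [IsFunctionField k F]

lemma finite_ord_ne_zero (f : F) : (Function.support fun P : Place k F => P.ord f).Finite := by
  by_cases htr : Transcendental k f
  · have h1 := finite_zeros (F := F) htr
    have h2 := finite_zeros (F := F) (transcendental_inv htr)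
    refine (h1.union h2).subset fun P hP => ?_
    rw [Function.mem_support] at hP
    simp only [Set.mem_union, Set.mem_ofPred_eq, Place.ord_inv]
    omega
  · rw [Transcendental, not_not] at htr
    obtain ⟨c, rfl⟩ := mem_range_of_isAlgebraic htr
    convert Set.finite_empty
    ext P
    simp [P.ord_algebraMap]

/-- The principal divisor of a function (`0` for the zero function). -/
noncomputable def div (f : F) : Divisor k F :=
  Finsupp.ofSupportFinite (fun P : Place k F => P.ord f) (finite_ord_ne_zero f)

lemma div_apply (f : F) (P : Place k F) : div f P = P.ord f := rfl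

lemma div_mul {f g : F} (hf : f ≠ 0) (hg : g ≠ 0) : div (k := k) (f * g) = div f + div g := by
  ext P
  rw [Finsupp.add_apply, div_apply, div_apply, div_apply, P.ord_mul f g hf hg]

lemma div_inv (f : F) : div (k := k) f⁻¹ = -div f := by
  ext P
  rw [Finsupp.neg_apply, div_apply, div_apply, P.ord_inv]

/-- The divisor of poles of a function. -/
noncomputable def poles (f : F) : Divisor k F := (-div f) ⊔ 0

lemma poles_apply (f : F) (P : Place k F) : poles f P = max (-P.ord f) 0 := rfl

lemma poles_nonneg (f : F) : (0 : Divisor k F) ≤ poles f := le_sup_right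

lemma div_eq_poles_sub (f : F) : div (k := k) f = poles f⁻¹ - poles f := by
  ext P
  rw [Finsupp.sub_apply, poles_apply, poles_apply, div_apply, P.ord_inv]
  omega

lemma mem_L_iff_div {D : Divisor k F} {f : F} (hf : f ≠ 0) :
    f ∈ D.L ↔ 0 ≤ div f + D := by
  constructor
  · intro h P
    have := (h P).le hf
    rw [Finsupp.add_apply, div_apply, Finsupp.coe_zero, Pi.zero_apply]
    linarith
  · intro h P
    right
    have := h P
    rw [Finsupp.add_apply, div_apply, Finsupp.coe_zero, Pi.zero_apply] at this
    linarith

/-- Multiplication by `z⁻¹` identifies `L(D)` and `L(D + div z)`. -/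
lemma map_mulLeft_L (D : Divisor k F) {z : F} (hz : z ≠ 0) :
    D.L.map (LinearMap.mulLeft k z⁻¹) = (D + div z).L := by
  ext f
  rw [Submodule.mem_map]
  constructor
  · rintro ⟨g, hg, rfl⟩ P
    rw [LinearMap.mulLeft_apply]
    refine ((P.ge_ord z⁻¹).mul (hg P)).mono ?_
    rw [P.ord_inv, Finsupp.add_apply, div_apply]
    linarith
  · intro hf
    refine ⟨z * f, fun P => ?_, ?_⟩
    · refine ((P.ge_ord z).mul (hf P)).mono ?_
      rw [Finsupp.add_apply, div_apply]
      linarith
    · rw [LinearMap.mulLeft_apply]
      field_simp

lemma ell_add_div (D : Divisor k F) {z : F} (hz : z ≠ 0) : (D + div z).ell = D.ell := by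
  unfold Divisor.ell
  rw [← map_mulLeft_L D hz]
  refine (LinearEquiv.finrank_eq (Submodule.equivMapOfInjective _ ?_ D.L)).symm
  intro a b hab
  simp only [LinearMap.mulLeft_apply] at hab
  exact mul_left_cancel₀ (inv_ne_zero hz) hab

end

lemma adjoin_inv (x : F) :
    IntermediateField.adjoin k {x⁻¹} = IntermediateField.adjoin k {x} := by
  apply le_antisymm
  · rw [IntermediateField.adjoin_simple_le_iff]
    exact inv_mem (IntermediateField.mem_adjoin_simple_self k x)
  · rw [IntermediateField.adjoin_simple_le_iff]
    have := inv_mem (IntermediateField.mem_adjoin_simple_self k x⁻¹)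
    rwa [inv_inv] at this

lemma linearIndependent_pow_of_transcendental {K : Type*} [Field K] [Algebra k K] {x : K}
    (hx : Transcendental k x) (n : ℕ) : LinearIndependent k (fun i : Fin n => x ^ (i : ℕ)) := by
  have h1 : LinearIndependent k (fun i : ℕ => (aeval x : k[X] →ₐ[k] K).toLinearMap
      (Polynomial.basisMonomials k i)) := by
    refine (Polynomial.basisMonomials k).linearIndependent.map' _ ?_
    rw [LinearMap.ker_eq_bot]
    exact transcendental_iff_injective.1 hx
  have h2 := h1.comp (fun i : Fin n => (i : ℕ)) Fin.val_injective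
  convert h2 using 1
  ext i
  simp

lemma linearIndependent_pow_mul {x : F} (hx : Transcendental k x) {ι : Type*} {u : ι → F}
    (hu : LinearIndependent (IntermediateField.adjoin k {x}) u) (l : ℕ) :
    LinearIndependent k (fun p : Fin l × ι => x ^ (p.1 : ℕ) * u p.2) := by
  have htr : Transcendental k (IntermediateField.AdjoinSimple.gen k x) := by
    intro h
    exact hx (by
      have := h.algebraMap (A := F)
      simpa using this)
  have h1 := linearIndependent_pow_of_transcendental htr l
  have h2 := linearIndependent_smul (R := k) (S := IntermediateField.adjoin k {x}) (A := F) h1 hu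
  have e : (fun p : Fin l × ι => x ^ (p.1 : ℕ) * u p.2) =
      (fun p : Fin l × ι => (IntermediateField.AdjoinSimple.gen k x) ^ (p.1 : ℕ) • u p.2) := by
    funext p
    rw [Algebra.smul_def, map_pow, IntermediateField.AdjoinSimple.algebraMap_gen]
  rw [e]
  exact h2

section

variable [IsAlgClosed k] [CharZero k] [IsFunctionField k F]

lemma finrank_le_degree_poles {x : F} (hx : Transcendental k x) :
    (Module.finrank (IntermediateField.adjoin k {x}) F : ℤ) ≤
      (poles (k := k) x).degree := by
  classical
  have hfd := finiteDimensional_adjoin_of_transcendental hx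
  set n := Module.finrank (IntermediateField.adjoin k {x}) F with hn
  let b := Module.finBasis (IntermediateField.adjoin k {x}) F
  set C : Divisor k F := ∑ j, poles (b j) with hC
  have hC0 : 0 ≤ C := Finset.sum_nonneg fun j _ => poles_nonneg _
  have hCj : ∀ j, poles (k := k) (b j) ≤ C := fun j =>
    Finset.single_le_sum (f := fun j => poles (k := k) (b j)) (fun j _ => poles_nonneg _)
      (Finset.mem_univ j)
  have main : ∀ l : ℕ, ((l : ℤ) + 1) * n ≤ l * (poles (k := k) x).degree + C.degree + 1 := by
    intro l
    have hlin : LinearIndependent k (fun p : Fin (l + 1) × Fin n => x ^ (p.1 : ℕ) * b p.2) :=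
      linearIndependent_pow_mul hx b.linearIndependent (l + 1)
    have hmem : ∀ p : Fin (l + 1) × Fin n,
        x ^ (p.1 : ℕ) * b p.2 ∈ (l • poles (k := k) x + C).L := by
      intro p P
      have h1 : P.ge (x ^ (p.1 : ℕ)) ((p.1 : ℕ) * P.ord x) := (P.ge_ord x).pow _
      have h2 : P.ge (b p.2) (P.ord (b p.2)) := P.ge_ord _
      refine (h1.mul h2).mono ?_
      have h3 := hCj p.2 P
      rw [poles_apply] at h3
      have h4 : ((p.1 : ℕ) : ℤ) ≤ l := by
        have := p.1.2
        omega
      rw [Finsupp.add_apply, Finsupp.smul_apply, poles_apply]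
      have h5 : -P.ord x ≤ max (-P.ord x) 0 := le_max_left _ _
      have h6 : 0 ≤ max (-P.ord x) 0 := le_max_right _ _
      have h7 : -P.ord (b p.2) ≤ max (-P.ord (b p.2)) 0 := le_max_left _ _
      have h8 : -(((p.1 : ℕ) : ℤ) * P.ord x) ≤ l * max (-P.ord x) 0 := by
        have h9 : (0 : ℤ) ≤ ((p.1 : ℕ) : ℤ) := by positivity
        nlinarith
      simp only [nsmul_eq_mul]
      linarith
    have hlin2 : LinearIndependent k (fun p : Fin (l + 1) × Fin n =>
        (⟨_, hmem p⟩ : (l • poles (k := k) x + C).L)) :=
      LinearIndependent.of_comp (l • poles (k := k) x + C).L.subtype hlin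
    have hcard := hlin2.fintype_card_le_finrank
    rw [Fintype.card_prod, Fintype.card_fin, Fintype.card_fin] at hcard
    have hnn : 0 ≤ l • poles (k := k) x + C :=
      add_nonneg (nsmul_nonneg (poles_nonneg x) l) hC0
    have hell := Divisor.ell_le_degree_add_one hnn
    rw [Divisor.degree_add, Divisor.degree_nsmul] at hell
    unfold Divisor.ell at hell
    have : (((l + 1) * n : ℕ) : ℤ) ≤
      (Module.finrank k (l • poles (k := k) x + C).L : ℤ) := by exact_mod_cast hcard
    push_cast at this
    linarith
  by_contra hlt
  push Not at hlt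
  have hB0 : 0 ≤ (poles (k := k) x).degree := Divisor.degree_nonneg (poles_nonneg x)
  have hCd : 0 ≤ C.degree := Divisor.degree_nonneg hC0
  have h1 := main (C.degree + 1).toNat
  rw [Int.toNat_of_nonneg (by omega)] at h1
  nlinarith

/-- The degree of the divisor of poles of `x` is `[F : k(x)]`. -/
theorem degree_poles {x : F} (hx : Transcendental k x) :
    (poles (k := k) x).degree = Module.finrank (IntermediateField.adjoin k {x}) F := by
  apply le_antisymm _ (finrank_le_degree_poles hx)
  have hS : ∀ P ∈ (poles (k := k) x).support, 0 < P.ord x⁻¹ := by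
    intro P hP
    rw [Finsupp.mem_support_iff, poles_apply] at hP
    rw [P.ord_inv]
    omega
  have h1 := sum_ord_le (transcendental_inv hx) _ hS
  rw [adjoin_inv] at h1
  refine le_trans (le_of_eq ?_) h1
  rw [Divisor.degree_eq_sum]
  refine Finset.sum_congr rfl fun P hP => ?_
  have := hS P hP
  rw [P.ord_inv] at this ⊢
  rw [poles_apply]
  omega

/-- The degree of a principal divisor is zero. -/
theorem degree_div (f : F) : (div (k := k) f).degree = 0 := by
  by_cases htr : Transcendental k f
  · rw [div_eq_poles_sub, Divisor.degree_sub, degree_poles htr,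
      degree_poles (transcendental_inv htr), adjoin_inv, sub_self]
  · rw [Transcendental, not_not] at htr
    obtain ⟨c, rfl⟩ := mem_range_of_isAlgebraic htr
    have : div (k := k) (algebraMap k F c) = 0 := by
      ext P
      rw [div_apply, P.ord_algebraMap]
      rfl
    rw [this, Divisor.degree_zero]

/-- A divisor with `ℓ(D) > 0` is linearly equivalent to an effective one. -/
lemma exists_effective {D : Divisor k F} (h : 0 < D.ell) :
    ∃ z : F, z ≠ 0 ∧ 0 ≤ D + div z := by
  obtain ⟨f, hf, hf0⟩ := Divisor.ell_pos_iff.1 h
  exact ⟨f, hf0, by rw [add_comm]; exact (mem_L_iff_div hf0).1 hf⟩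

/-- Riemann's argument: a bound for `deg - ℓ` along the multiples of an effective divisor of
positive degree is a bound for all divisors. -/
theorem degree_sub_ell_le {D : Divisor k F} (hdeg : 0 < D.degree) {γ : ℤ}
    (h : ∀ᶠ m : ℕ in Filter.atTop, (m • D).degree - ((m • D).ell : ℤ) ≤ γ) (A : Divisor k F) :
    A.degree - (A.ell : ℤ) ≤ γ := by
  have hA : A ≤ A ⊔ 0 := le_sup_left
  have hA0 : 0 ≤ A ⊔ 0 := le_sup_right
  refine (Divisor.degree_sub_ell_mono hA).trans ?_
  set B := A ⊔ 0 with hB
  obtain ⟨m, hm, hm2⟩ := (h.and (Filter.eventually_ge_atTop (B.degree + γ + 1).toNat)).exists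
  have hell : 0 < (m • D - B).ell := by
    have h1 := Divisor.ell_add_le (m • D - B) B hA0
    rw [sub_add_cancel] at h1
    rw [Divisor.degree_nsmul] at hm
    have h2 : B.degree + γ + 1 ≤ m := by
      have := Int.self_le_toNat (B.degree + γ + 1)
      omega
    have h3 : (m : ℤ) ≤ m * D.degree := by nlinarith
    have h4 : (0 : ℤ) < (m • D - B).ell := by linarith
    exact_mod_cast h4
  obtain ⟨z, hz, hz2⟩ := exists_effective hell
  have h1 : B ≤ m • D + div z := by
    intro P
    have := hz2 P
    simp only [Finsupp.add_apply, Finsupp.sub_apply, Finsupp.coe_zero, Pi.zero_apply] at this ⊢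
    linarith
  have h2 := Divisor.degree_sub_ell_mono h1
  rw [Divisor.degree_add, degree_div, add_zero, ell_add_div _ hz] at h2
  exact h2.trans hm

end

end Pool.Agent.H29
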