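import Pool.Agent.H29.Residue
import Pool.Agent.H29.Approx
import Pool.Agent.H29.Existence

/-! # Riemann-Roch spaces: basic inequalities -/

namespace Pool.Agent.H29

variable {k F : Type*} [Field k] [Field F] [Algebra k F]

namespace Divisor

/-! ### Degree -/

lemma degree_zero : degree (0 : Divisor k F) = 0 := by simp [degree]

lemma degree_add (D E : Divisor k F) : degree (D + E) = degree D + degree E := by
  unfold degree
  exact Finsupp.sum_add_index' (fun _ => rfl) (fun _ _ _ => rfl)

lemma degree_single (P : Place k F) (n : ℤ) :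
    degree (Finsupp.single P n : Divisor k F) = n := by
  unfold degree
  simp

lemma degree_neg (D : Divisor k F) : degree (-D) = -degree D := by
  have := degree_add D (-D)
  rw [add_neg_cancel, degree_zero] at this
  linarith

lemma degree_sub (D E : Divisor k F) : degree (D - E) = degree D - degree E := by
  rw [sub_eq_add_neg, degree_add, degree_neg]
  ring

lemma degree_nsmul (D : Divisor k F) (n : ℕ) : degree (n • D) = n * degree D := by
  induction n with
  | zero => simp [degree_zero]
  | succ n ih => rw [succ_nsmul, degree_add, ih]; push_cast; ring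

lemma degree_eq_sum (D : Divisor k F) : degree D = ∑ P ∈ D.support, D P := rfl

lemma degree_nonneg {D : Divisor k F} (hD : 0 ≤ D) : 0 ≤ degree D := by
  rw [degree_eq_sum]
  exact Finset.sum_nonneg fun P _ => hD P

lemma degree_mono {D E : Divisor k F} (h : D ≤ E) : degree D ≤ degree E := by
  have h1 : 0 ≤ E - D := by
    intro P
    have := h P
    simp only [Finsupp.coe_zero, Pi.zero_apply, Finsupp.coe_sub, Pi.sub_apply]
    linarith
  have := degree_nonneg h1
  rw [degree_sub] at this
  linarith

lemma eq_zero_of_degree_eq_zero {D : Divisor k F} (hD : 0 ≤ D) (h : degree D = 0) : D = 0 := by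
  rw [degree_eq_sum, Finset.sum_eq_zero_iff_of_nonneg (fun P _ => hD P)] at h
  ext P
  by_cases hP : P ∈ D.support
  · exact h P hP
  · simpa using hP

/-- Induction on effective divisors. -/
lemma effective_induction {motive : Divisor k F → Prop} (h0 : motive 0)
    (hs : ∀ (E : Divisor k F) (P : Place k F), 0 ≤ E → motive E →
      motive (E + Finsupp.single P 1)) : ∀ E : Divisor k F, 0 ≤ E → motive E := by
  have key : ∀ (n : ℕ) (E : Divisor k F), 0 ≤ E → degree E = n → motive E := by
    intro n
    induction n with
    | zero =>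
      intro E hE hn
      rw [eq_zero_of_degree_eq_zero hE (by simpa using hn)]
      exact h0
    | succ n ih =>
      intro E hE hn
      have hne : E ≠ 0 := by
        rintro rfl
        rw [degree_zero] at hn
        push_cast at hn
        omega
      obtain ⟨P, hP⟩ := Finsupp.ne_iff.1 hne
      have hP1 : 1 ≤ E P := by
        have h1 := hE P
        simp only [Finsupp.coe_zero, Pi.zero_apply] at h1 hP
        omega
      have hE' : 0 ≤ E - Finsupp.single P 1 := by
        classical
        intro Q
        have h1 := hE Q
        simp only [Finsupp.coe_zero, Pi.zero_apply, Finsupp.coe_sub, Pi.sub_apply,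
          Finsupp.single_apply] at h1 ⊢
        split_ifs with h
        · subst h; omega
        · omega
      have e : E = (E - Finsupp.single P 1) + Finsupp.single P 1 := by abel
      rw [e]
      refine hs _ P hE' (ih _ hE' ?_)
      rw [degree_sub, degree_single, hn]
      push_cast
      ring
  intro E hE
  exact key (degree E).toNat E hE (by rw [Int.toNat_of_nonneg (degree_nonneg hE)])

/-! ### The spaces `L(D)` -/

lemma mem_L {D : Divisor k F} {f : F} : f ∈ D.L ↔ ∀ P : Place k F, P.ge f (-D P) := Iff.rfl

lemma L_mono {D E : Divisor k F} (h : D ≤ E) : D.L ≤ E.L := by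
  intro f hf P
  exact (hf P).mono (by have := h P; linarith)

lemma mul_mem_L {D E : Divisor k F} {f g : F} (hf : f ∈ D.L) (hg : g ∈ E.L) :
    f * g ∈ (D + E).L := by
  intro P
  refine ((hf P).mul (hg P)).mono ?_
  rw [Finsupp.add_apply]
  linarith

lemma one_mem_L {D : Divisor k F} (hD : 0 ≤ D) : (1 : F) ∈ D.L := by
  intro P
  right
  rw [P.ord_one]
  have := hD P
  simp only [Finsupp.coe_zero, Pi.zero_apply] at this
  linarith

lemma algebraMap_mem_L {D : Divisor k F} (hD : 0 ≤ D) (c : k) : algebraMap k F c ∈ D.L := by
  rw [Algebra.algebraMap_eq_smul_one]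
  exact Submodule.smul_mem _ c (one_mem_L hD)

section FF

variable [IsAlgClosed k] [IsFunctionField k F]

/-- One step: allowing one more pole adds at most one dimension. -/
lemma exists_L_le_sup (D : Divisor k F) (P : Place k F) :
    ∃ v : F, (D + Finsupp.single P 1).L ≤ D.L ⊔ Submodule.span k {v} := by
  classical
  by_cases h : (D + Finsupp.single P 1).L ≤ D.L
  · exact ⟨0, h.trans le_sup_left⟩
  obtain ⟨v, hv, hv'⟩ := SetLike.not_le_iff_exists.1 h
  refine ⟨v, fun f hf => ?_⟩
  -- away from `P` nothing changes
  have hQ : ∀ Q : Place k F, Q ≠ P → ∀ g : F, g ∈ (D + Finsupp.single P 1).L →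
      Q.ge g (-D Q) := by
    intro Q hQP g hg
    have := hg Q
    rwa [Finsupp.add_apply, Finsupp.single_apply, if_neg hQP.symm, add_zero] at this
  have hPv : P.ge v (-D P - 1) := by
    have := hv P
    rw [Finsupp.add_apply, Finsupp.single_apply, if_pos rfl] at this
    exact this.mono (by omega)
  have hPf : P.ge f (-D P - 1) := by
    have := hf P
    rw [Finsupp.add_apply, Finsupp.single_apply, if_pos rfl] at this
    exact this.mono (by omega)
  have hv2 : ¬ P.ge v (-D P) := by
    intro h1
    apply hv'
    intro Q
    by_cases hQP : Q = P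
    · rw [hQP]; exact h1
    · exact hQ Q hQP v hv
  have hv0 : v ≠ 0 := fun h0 => hv2 (Or.inl h0)
  have hvord : P.ord v = -D P - 1 := by
    have h1 := hPv.le hv0
    have h2 : ¬ (-D P ≤ P.ord v) := fun h3 => hv2 (Or.inr h3)
    omega
  have h1 : P.ge (f / v) 0 := by
    have := hPf.inv_mul hv0
    rw [hvord] at this
    exact this.mono (by omega)
  obtain ⟨c, hc⟩ := P.exists_residue h1
  have h2 : f - c • v ∈ D.L := by
    intro Q
    by_cases hQP : Q = P
    · rw [hQP]
      have h3 : f - c • v = (f / v - algebraMap k F c) * v := by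
        rw [Algebra.smul_def]; field_simp
      rw [h3]
      have := hc.mul (P.ge_ord v)
      rw [hvord] at this
      exact this.mono (by omega)
    · exact (hQ Q hQP f hf).sub ((hQ Q hQP v hv).smul c)
  have e : f = (f - c • v) + c • v := by ring
  rw [e]
  exact Submodule.add_mem_sup h2 (Submodule.smul_mem _ c (Submodule.mem_span_singleton_self v))

variable [CharZero k]

/-- `L(0) = k`. -/
lemma L_zero : (0 : Divisor k F).L = Submodule.span k {(1 : F)} := by
  apply le_antisymm
  · intro f hf
    rw [Submodule.mem_span_singleton]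
    by_contra hcon
    push Not at hcon
    have htr : Transcendental k f := by
      apply transcendental_of_not_const
      intro c hc
      apply hcon c
      rw [← hc, Algebra.algebraMap_eq_smul_one]
    have htr' : Transcendental k f⁻¹ := by
      intro h
      apply htr
      rw [← inv_inv f]
      exact h.inv
    obtain ⟨P, hP⟩ := exists_place_pos (F := F) htr'
    rw [P.ord_inv] at hP
    have h1 := hf P
    rw [Finsupp.coe_zero, Pi.zero_apply, neg_zero] at h1
    have h2 := h1.le (Place.ne_zero_of_ord_neg (P := P) (by omega))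
    omega
  · rw [Submodule.span_le, Set.singleton_subset_iff]
    exact one_mem_L le_rfl

lemma finite_and_ell_add (D : Divisor k F) (hD : FiniteDimensional k D.L) :
    ∀ E : Divisor k F, 0 ≤ E → FiniteDimensional k (D + E).L ∧
      ((D + E).ell : ℤ) ≤ D.ell + E.degree := by
  refine effective_induction ?_ ?_
  · rw [add_zero, degree_zero, add_zero]
    exact ⟨hD, le_rfl⟩
  · intro E P _ ih
    obtain ⟨hfin, hle⟩ := ih
    obtain ⟨v, hv⟩ := exists_L_le_sup (D + E) P
    rw [add_assoc] at hv
    have hfin2 : FiniteDimensional k ((D + E).L ⊔ Submodule.span k {v} : Submodule k F) := by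
      infer_instance
    have hfin3 : FiniteDimensional k (D + (E + Finsupp.single P 1)).L :=
      Submodule.finiteDimensional_of_le hv
    refine ⟨hfin3, ?_⟩
    have h1 : Module.finrank k (D + (E + Finsupp.single P 1)).L ≤
        Module.finrank k ((D + E).L ⊔ Submodule.span k {v} : Submodule k F) :=
      Submodule.finrank_mono hv
    have h2 : Module.finrank k ((D + E).L ⊔ Submodule.span k {v} : Submodule k F) ≤
        Module.finrank k (D + E).L + Module.finrank k (Submodule.span k {v}) :=
      Submodule.finrank_add_le_finrank_add_finrank _ _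
    have h3 : Module.finrank k (Submodule.span k {v}) ≤ 1 := by
      have := finrank_span_le_card (R := k) ({v} : Set F)
      simpa using this
    rw [degree_add, degree_single]
    unfold ell at hle ⊢
    have h4 : ((Module.finrank k (D + (E + Finsupp.single P 1)).L : ℕ) : ℤ) ≤
        (Module.finrank k (D + E).L : ℤ) + 1 := by exact_mod_cast (h1.trans h2).trans (by omega)
    linarith

instance finiteDimensional_zero_L : FiniteDimensional k (0 : Divisor k F).L := by
  rw [L_zero]; infer_instance

lemma ell_zero : (0 : Divisor k F).ell = 1 := by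
  unfold ell
  rw [L_zero]
  exact finrank_span_singleton one_ne_zero

instance finiteDimensional_L (D : Divisor k F) : FiniteDimensional k D.L := by
  have h1 : D ≤ 0 + (D ⊔ 0) := by rw [zero_add]; exact le_sup_left
  have h2 := (finite_and_ell_add (0 : Divisor k F) inferInstance (D ⊔ 0) le_sup_right).1
  exact Submodule.finiteDimensional_of_le (L_mono h1)

/-- `ℓ(D + E) ≤ ℓ(D) + deg E` for `E ≥ 0`. -/
lemma ell_add_le (D E : Divisor k F) (hE : 0 ≤ E) : ((D + E).ell : ℤ) ≤ D.ell + E.degree :=
  (finite_and_ell_add D inferInstance E hE).2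

lemma ell_mono {D E : Divisor k F} (h : D ≤ E) : D.ell ≤ E.ell :=
  Submodule.finrank_mono (L_mono h)

/-- `deg D - ℓ(D)` is monotone. -/
lemma degree_sub_ell_mono {D E : Divisor k F} (h : D ≤ E) :
    D.degree - (D.ell : ℤ) ≤ E.degree - E.ell := by
  have h1 : 0 ≤ E - D := by
    intro P
    have := h P
    simp only [Finsupp.coe_zero, Pi.zero_apply, Finsupp.coe_sub, Pi.sub_apply]
    linarith
  have h2 := ell_add_le D (E - D) h1
  rw [add_sub_cancel, degree_sub] at h2
  linarith

lemma ell_le_degree_add_one {D : Divisor k F} (hD : 0 ≤ D) : (D.ell : ℤ) ≤ D.degree + 1 := by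
  have := ell_add_le 0 D hD
  rw [zero_add, ell_zero] at this
  push_cast at this
  linarith

lemma ell_pos_iff {D : Divisor k F} : 0 < D.ell ↔ ∃ f ∈ D.L, f ≠ 0 := by
  unfold ell
  rw [Module.finrank_pos_iff_exists_ne_zero]
  constructor
  · rintro ⟨f, hf⟩
    exact ⟨f, f.2, by simpa using hf⟩
  · rintro ⟨f, hf, hf0⟩
    exact ⟨⟨f, hf⟩, by simpa using hf0⟩

end FF

end Divisor

end Pool.Agent.H29
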