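import Pool.Agent.H29.Places

namespace Pool.Agent.H29

open Polynomial

variable {k F : Type*} [Field k] [Field F] [Algebra k F]

lemma mem_range_of_isAlgebraic [IsAlgClosed k] {f : F} (hf : IsAlgebraic k f) :
    ∃ c : k, algebraMap k F c = f := by
  have hint : IsIntegral k f := hf.isIntegral
  have hirr := minpoly.irreducible hint
  have hdeg := IsAlgClosed.degree_eq_one_of_irreducible k hirr
  exact minpoly.mem_range_of_degree_eq_one k f hdeg

lemma transcendental_of_not_const [IsAlgClosed k] {f : F} (hf : ∀ c : k, algebraMap k F c ≠ f) :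
    Transcendental k f := by
  intro h
  obtain ⟨c, hc⟩ := mem_range_of_isAlgebraic h
  exact hf c hc

namespace Place

lemma exists_residue_aux [IsAlgClosed k] (P : Place k F) {f : F} (hf : P.ge f 0) :
    ∀ (n : ℕ) (p : k[X]), p ≠ 0 → p.natDegree ≤ n → P.ge (aeval f p) 1 →
      ∃ c : k, P.ge (f - algebraMap k F c) 1 := by
  intro n
  induction n with
  | zero =>
    intro p hp hn h
    exfalso
    have hpc : p = C (p.coeff 0) := eq_C_of_natDegree_eq_zero (Nat.le_zero.1 hn)
    have hc : p.coeff 0 ≠ 0 := by
      intro h0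
      rw [h0, C_0] at hpc
      exact hp hpc
    rw [hpc, aeval_C] at h
    have hne : algebraMap k F (p.coeff 0) ≠ 0 := by simpa using hc
    have := h.le hne
    rw [P.ord_algebraMap] at this
    omega
  | succ n ih =>
    intro p hp hn h
    by_cases hdeg : p.natDegree = 0
    · exact ih p hp (by omega) h
    have hd : p.degree ≠ 0 := by
      intro h0
      exact hdeg (natDegree_eq_of_degree_eq_some h0)
    obtain ⟨c, hc⟩ := IsAlgClosed.exists_root p hd
    obtain ⟨q, hq⟩ := dvd_iff_isRoot.2 hc
    have hq0 : q ≠ 0 := by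
      rintro rfl
      exact hp (by rw [hq, mul_zero])
    have hqn : q.natDegree ≤ n := by
      have : p.natDegree = 1 + q.natDegree := by
        rw [hq, natDegree_mul (X_sub_C_ne_zero c) hq0, natDegree_X_sub_C]
      omega
    by_cases h1 : P.ge (aeval f q) 1
    · exact ih q hq0 hqn h1
    · refine ⟨c, ?_⟩
      have e : aeval f p = (f - algebraMap k F c) * aeval f q := by
        rw [hq]; simp
      rw [e] at h
      have hq1 : aeval f q ≠ 0 := fun h0 => h1 (Or.inl h0)
      have hq2 : P.ord (aeval f q) = 0 := by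
        have h2 := (P.ge_aeval hf q).le hq1
        have h3 : ¬ (1 ≤ P.ord (aeval f q)) := fun h4 => h1 (Or.inr h4)
        omega
      have := h.inv_mul hq1
      rw [mul_div_cancel_right₀ _ hq1, hq2, sub_zero] at this
      exact this

/-- The residue field of a place is `k`. -/
theorem exists_residue [IsAlgClosed k] [IsFunctionField k F] (P : Place k F) {f : F}
    (hf : P.ge f 0) : ∃ c : k, P.ge (f - algebraMap k F c) 1 := by
  by_cases hcon : ∃ c : k, algebraMap k F c = f
  · obtain ⟨c, rfl⟩ := hcon
    exact ⟨c, Or.inl (sub_self _)⟩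
  push Not at hcon
  have htr := transcendental_of_not_const hcon
  by_cases hex : ∃ p : k[X], p ≠ 0 ∧ P.ge (aeval f p) 1
  · obtain ⟨p, hp, h⟩ := hex
    exact P.exists_residue_aux hf p.natDegree p hp le_rfl h
  exfalso
  push Not at hex
  have hpol : ∀ p : k[X], p ≠ 0 → P.ord (aeval f p) = 0 := by
    intro p hp
    have h1 := hex p hp
    have h0 : aeval f p ≠ 0 := fun h0 => h1 (Or.inl h0)
    have h2 := (P.ge_aeval hf p).le h0
    have h3 : ¬ (1 ≤ P.ord (aeval f p)) := fun h4 => h1 (Or.inr h4)
    omega
  have hE : ∀ a : IntermediateField.adjoin k {f}, P.ord (a : F) = 0 := by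
    intro a
    obtain ⟨p, q, hpq⟩ := IntermediateField.mem_adjoin_simple_iff k (a : F) |>.1 a.2
    rw [hpq]
    by_cases hp : p = 0
    · rw [hp]; simp [P.ord_zero]
    by_cases hq : q = 0
    · rw [hq]; simp [P.ord_zero]
    have hpf : aeval f p ≠ 0 := fun h0 => hp ((transcendental_iff.1 htr) p h0)
    have hqf : aeval f q ≠ 0 := fun h0 => hq ((transcendental_iff.1 htr) q h0)
    rw [P.ord_div hpf hqf, hpol p hp, hpol q hq, sub_zero]
  obtain ⟨t, ht⟩ := P.exists_ord_eq_one
  have ht0 : t ≠ 0 := by
    rintro rfl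
    rw [P.ord_zero] at ht
    omega
  have halg := isAlgebraic_adjoin_of_transcendental htr
  have hint : IsIntegral (IntermediateField.adjoin k {f}) t :=
    (Algebra.IsAlgebraic.isAlgebraic t).isIntegral
  set m := minpoly (IntermediateField.adjoin k {f}) t with hm
  have hm0 : m.coeff 0 ≠ 0 := minpoly.coeff_zero_ne_zero hint ht0
  have hroot : aeval t m = 0 := minpoly.aeval _ _
  rw [aeval_eq_sum_range, Finset.sum_range_succ'] at hroot
  have hge : P.ge (∑ i ∈ Finset.range m.natDegree, m.coeff (i + 1) • t ^ (i + 1)) 1 := by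
    refine ge.sum fun i _ => ?_
    rw [Algebra.smul_def]
    have h1 : P.ge (algebraMap (IntermediateField.adjoin k {f}) F (m.coeff (i + 1))) 0 := by
      right
      exact (hE (m.coeff (i + 1))).ge
    have h2 : P.ge (t ^ (i + 1)) (((i + 1 : ℕ) : ℤ) * 1) := by
      have h3 : P.ge t 1 := Or.inr ht.ge
      exact h3.pow (i + 1)
    refine (h1.mul h2).mono ?_
    push_cast
    omega
  have h4 : P.ge (algebraMap (IntermediateField.adjoin k {f}) F (m.coeff 0)) 1 := by
    have e : algebraMap (IntermediateField.adjoin k {f}) F (m.coeff 0) =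
        -(∑ i ∈ Finset.range m.natDegree, m.coeff (i + 1) • t ^ (i + 1)) := by
      rw [pow_zero, Algebra.smul_def, mul_one] at hroot
      linear_combination hroot
    rw [e]
    exact hge.neg
  have h5 : algebraMap (IntermediateField.adjoin k {f}) F (m.coeff 0) ≠ 0 := by
    simpa using hm0
  have h6 := h4.le h5
  have h7 := hE (m.coeff 0)
  have h8 : P.ord (algebraMap (IntermediateField.adjoin k {f}) F (m.coeff 0)) = 0 := h7
  omega

end Place

end Pool.Agent.H29
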