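import Pool.Agent.H29.Principal

/-! # Divisors separating points and tangent vectors: a genus bound -/

namespace Pool.Agent.H29

open Polynomial

variable {k F : Type*} [Field k] [Field F] [Algebra k F]

/-- A subspace which is contained in none of finitely many subspaces has an element outside all
of them (infinite ground field). -/
lemma exists_mem_forall_notMem [Infinite k] {ι : Type*} (s : Finset ι) (V : Submodule k F)
    (U : ι → Submodule k F) (h : ∀ i ∈ s, ¬ V ≤ U i) : ∃ v ∈ V, ∀ i ∈ s, v ∉ U i := by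
  by_contra hcon
  push Not at hcon
  have hcov : ⋃ i : s, (((U i.1).comap V.subtype : Subspace k V) : Set V) = Set.univ := by
    rw [Set.eq_univ_iff_forall]
    intro v
    obtain ⟨i, his, hi⟩ := hcon v v.2
    exact Set.mem_iUnion.2 ⟨⟨i, his⟩, hi⟩
  obtain ⟨i, hi⟩ := Subspace.exists_eq_top_of_iUnion_eq_univ hcov
  apply h i.1 i.2
  intro v hv
  have h2 : (⟨v, hv⟩ : V) ∈ (U i.1).comap V.subtype := by rw [hi]; exact Submodule.mem_top
  exact h2

section

variable [IsAlgClosed k] [CharZero k] [IsFunctionField k F]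

/-- `D` separates points and tangent vectors. -/
def VeryAmple (D : Divisor k F) : Prop :=
  ∀ P Q : Place k F, (D - Finsupp.single P 1 - Finsupp.single Q 1).ell + 2 ≤ D.ell

lemma exists_place : ∃ _ : Place k F, True := by
  obtain ⟨x, hx⟩ := exists_transcendental (k := k) (F := F)
  obtain ⟨P, -⟩ := exists_place_pos hx
  exact ⟨P, trivial⟩

namespace VeryAmple

variable {D : Divisor k F}

/-- Two subtracted points impose exactly two conditions; adding a vector does not help. -/
lemma not_le_sup (hD : VeryAmple D) (P Q : Place k F) (x : F) :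
    ¬ D.L ≤ (D - Finsupp.single P 1 - Finsupp.single Q 1).L ⊔ Submodule.span k {x} := by
  intro h
  have h1 := Submodule.finrank_mono h
  have h2 := Submodule.finrank_add_le_finrank_add_finrank
    (D - Finsupp.single P 1 - Finsupp.single Q 1).L (Submodule.span k {x})
  have h3 : Module.finrank k (Submodule.span k {x}) ≤ 1 := by
    have := finrank_span_le_card (R := k) ({x} : Set F)
    simpa using this
  have h4 := hD P Q
  unfold Divisor.ell at h4
  omega

lemma not_le_single (hD : VeryAmple D) (P : Place k F) :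
    ¬ D.L ≤ (D - Finsupp.single P 1).L := by
  intro h
  obtain ⟨v, hv⟩ := Divisor.exists_L_le_sup (D - Finsupp.single P 1 - Finsupp.single P 1) P
  rw [sub_add_cancel] at hv
  exact not_le_sup hD P P v (h.trans hv)

/-- A generic section `x` has order exactly `-D(P)` at the points of the support. -/
lemma exists_x (hD : VeryAmple D) : ∃ x ∈ D.L, x ≠ 0 ∧ ∀ P ∈ D.support, P.ord x = -D P := by
  classical
  have : Infinite k := IsAlgClosed.instInfinite
  obtain ⟨P₀, -⟩ := exists_place (k := k) (F := F)
  obtain ⟨x, hx, hx2⟩ := exists_mem_forall_notMem (insert P₀ D.support) D.L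
    (fun P => (D - Finsupp.single P 1).L) (fun P _ => not_le_single hD P)
  have hx0 : x ≠ 0 := by
    rintro rfl
    exact hx2 P₀ (Finset.mem_insert_self _ _) (Submodule.zero_mem _)
  refine ⟨x, hx, hx0, fun P hP => ?_⟩
  by_contra hne
  apply hx2 P (Finset.mem_insert_of_mem hP)
  intro Q
  have h2 : -D Q ≤ Q.ord x := (hx Q).le hx0
  right
  rw [Finsupp.sub_apply, Finsupp.single_apply]
  split_ifs with h
  · subst h
    omega
  · omega

/-- The choice of `y`: no combination `y - c x` vanishes at `P + Q`. -/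
lemma exists_y (hD : VeryAmple D) (x : F) : ∃ y ∈ D.L, ∀ P ∈ D.support, ∀ Q ∈ D.support,
    ∀ c : k, y - c • x ∉ (D - Finsupp.single P 1 - Finsupp.single Q 1).L := by
  classical
  have : Infinite k := IsAlgClosed.instInfinite
  obtain ⟨y, hy, hy2⟩ := exists_mem_forall_notMem (D.support ×ˢ D.support) D.L
    (fun p : Place k F × Place k F =>
      (D - Finsupp.single p.1 1 - Finsupp.single p.2 1 : Divisor k F).L ⊔ Submodule.span k {x})
    (fun p _ => not_le_sup hD p.1 p.2 x)
  refine ⟨y, hy, fun P hP Q hQ c hc => ?_⟩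
  apply hy2 (P, Q) (Finset.mk_mem_product hP hQ)
  have h2 := Submodule.add_mem_sup hc
    (Submodule.smul_mem _ c (Submodule.mem_span_singleton_self x))
  rw [sub_add_cancel] at h2
  exact h2

variable {x y : F}

/-- Regularity of `z = y / x` on the support. -/
lemma z_ge (hx : x ≠ 0) (hxD : ∀ P ∈ D.support, P.ord x = -D P) (hy : y ∈ D.L)
    {P : Place k F} (hP : P ∈ D.support) : P.ge (y / x) 0 := by
  have := (hy P).inv_mul hx
  rw [hxD P hP] at this
  exact this.mono (by omega)

lemma z_sub_ne_zero (hx : x ≠ 0) (hne : D.support.Nonempty)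
    (hy2 : ∀ P ∈ D.support, ∀ Q ∈ D.support,
      ∀ c : k, y - c • x ∉ (D - Finsupp.single P 1 - Finsupp.single Q 1).L) (c : k) :
    y / x - algebraMap k F c ≠ 0 := by
  obtain ⟨P, hP⟩ := hne
  intro h
  apply hy2 P hP P hP c
  have : y - c • x = 0 := by
    rw [Algebra.smul_def]
    field_simp at h
    linear_combination h
  rw [this]
  exact Submodule.zero_mem _

/-- `z - c` has at most one zero on the support, and it is simple. -/
lemma sum_ord_z_sub_le (hx : x ≠ 0) (hxL : x ∈ D.L) (hxD : ∀ P ∈ D.support, P.ord x = -D P)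
    (hy : y ∈ D.L) (hne : D.support.Nonempty)
    (hy2 : ∀ P ∈ D.support, ∀ Q ∈ D.support,
      ∀ c : k, y - c • x ∉ (D - Finsupp.single P 1 - Finsupp.single Q 1).L) (c : k) :
    ∑ P ∈ D.support, P.ord (y / x - algebraMap k F c) ≤ 1 := by
  classical
  have hz0 := z_sub_ne_zero hx hne hy2 c
  set w := y / x - algebraMap k F c with hw
  have hwx : y - c • x = w * x := by
    rw [hw, Algebra.smul_def]
    field_simp
  have hnn : ∀ P ∈ D.support, 0 ≤ P.ord w := fun P hP =>
    ((z_ge hx hxD hy hP).sub (P.ge_algebraMap c)).le hz0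
  have hL : y - c • x ∈ D.L := Submodule.sub_mem _ hy (Submodule.smul_mem _ c hxL)
  by_contra hlt
  push Not at hlt
  -- there is a point where `w` vanishes
  obtain ⟨P, hP, hPw⟩ : ∃ P ∈ D.support, 0 < P.ord w := by
    by_contra hcon
    push Not at hcon
    have := Finset.sum_nonpos hcon
    omega
  by_cases h2 : 2 ≤ P.ord w
  · apply hy2 P hP P hP c
    rw [hwx]
    intro Q
    have hQ := hL Q
    rw [hwx] at hQ
    rw [Finsupp.sub_apply, Finsupp.sub_apply, Finsupp.single_apply]
    split_ifs with h
    · subst h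
      right
      rw [P.ord_mul _ _ hz0 hx, hxD P hP]
      omega
    · simpa using hQ
  · have hPw1 : P.ord w = 1 := by omega
    obtain ⟨Q, hQ, hQw⟩ : ∃ Q ∈ D.support.erase P, 0 < Q.ord w := by
      by_contra hcon
      push Not at hcon
      have h3 := Finset.sum_nonpos hcon
      rw [← Finset.add_sum_erase _ _ hP] at hlt
      omega
    have hQP := Finset.ne_of_mem_erase hQ
    have hQ' := Finset.mem_of_mem_erase hQ
    apply hy2 P hP Q hQ' c
    rw [hwx]
    intro R
    have hR := hL R
    rw [hwx] at hR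
    rw [Finsupp.sub_apply, Finsupp.sub_apply, Finsupp.single_apply, Finsupp.single_apply]
    by_cases h : P = R
    · subst h
      rw [if_pos rfl, if_neg hQP]
      right
      rw [P.ord_mul _ _ hz0 hx, hxD P hP]
      omega
    · rw [if_neg h]
      by_cases h' : Q = R
      · subst h'
        rw [if_pos rfl]
        right
        rw [Q.ord_mul _ _ hz0 hx, hxD Q hQ']
        omega
      · rw [if_neg h']
        simpa using hR

lemma sum_ord_aeval_le (hx : x ≠ 0) (hxL : x ∈ D.L) (hxD : ∀ P ∈ D.support, P.ord x = -D P)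
    (hy : y ∈ D.L) (hne : D.support.Nonempty)
    (hy2 : ∀ P ∈ D.support, ∀ Q ∈ D.support,
      ∀ c : k, y - c • x ∉ (D - Finsupp.single P 1 - Finsupp.single Q 1).L) :
    ∀ (n : ℕ) (h : k[X]), h ≠ 0 → h.natDegree ≤ n → aeval (y / x) h ≠ 0 ∧
      ∑ P ∈ D.support, P.ord (aeval (y / x) h) ≤ h.natDegree := by
  intro n
  induction n with
  | zero =>
    intro p hp hn
    have hpc : p = C (p.coeff 0) := eq_C_of_natDegree_eq_zero (Nat.le_zero.1 hn)
    have hc : p.coeff 0 ≠ 0 := by
      intro h0
      rw [h0, C_0] at hpc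
      exact hp hpc
    rw [hpc, aeval_C]
    refine ⟨by simpa using hc, ?_⟩
    rw [Finset.sum_eq_zero fun P _ => P.ord_algebraMap _]
    positivity
  | succ n ih =>
    intro p hp hn
    by_cases hdeg : p.natDegree = 0
    · exact ih p hp (by omega)
    have hd : p.degree ≠ 0 := by
      intro h0
      exact hdeg (natDegree_eq_of_degree_eq_some h0)
    obtain ⟨c, hc⟩ := IsAlgClosed.exists_root p hd
    obtain ⟨q, hq⟩ := dvd_iff_isRoot.2 hc
    have hq0 : q ≠ 0 := by
      rintro rfl
      exact hp (by rw [hq, mul_zero])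
    have hpq : p.natDegree = 1 + q.natDegree := by
      rw [hq, natDegree_mul (X_sub_C_ne_zero c) hq0, natDegree_X_sub_C]
    obtain ⟨ih1, ih2⟩ := ih q hq0 (by omega)
    have e : aeval (y / x) p = (y / x - algebraMap k F c) * aeval (y / x) q := by
      rw [hq]; simp
    have hz0 := z_sub_ne_zero hx hne hy2 c
    rw [e]
    refine ⟨mul_ne_zero hz0 ih1, ?_⟩
    have h1 := sum_ord_z_sub_le hx hxL hxD hy hne hy2 c
    rw [Finset.sum_congr rfl fun P _ => P.ord_mul _ _ hz0 ih1, Finset.sum_add_distrib, hpq]
    push_cast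
    linarith

end VeryAmple

end

end Pool.Agent.H29
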